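import Mathlib

/-!
MODULE Blk (about 80 lines, Mathlib only).  Cutting words into blocks.
* `blocks`: strong induction on `y.length`: if `y.length < 2 * N` take `[y]`, otherwise
  `y.take N :: (blocks of y.drop N)`.
* `lift_filter`: `List.filter_eq_append_iff` (twice).
* `mem_flatten_infix`.
-/

set_option autoImplicit false

namespace H47.SW

theorem blocks {A : Type} {N : ℕ} (hN : 0 < N) (y : List A) (hy : N ≤ y.length) :
    ∃ bs : List (List A), bs.flatten = y ∧ ∀ b ∈ bs, N ≤ b.length ∧ b.length < 2 * N := by
  induction hk : y.length using Nat.strong_induction_on generalizing y with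
  | _ k ih =>
    by_cases h : y.length < 2 * N
    · refine ⟨[y], by simp, ?_⟩
      intro b hb
      rw [List.mem_singleton] at hb
      subst hb
      exact ⟨hy, h⟩
    · have hlen : (y.drop N).length = y.length - N := List.length_drop
      obtain ⟨bs, hbs, hb⟩ := ih (y.drop N).length (by omega) (y.drop N) (by omega) rfl
      refine ⟨y.take N :: bs, ?_, ?_⟩
      · rw [List.flatten_cons, hbs, List.take_append_drop]
      · intro b hb'
        rw [List.mem_cons] at hb'
        rcases hb' with rfl | hb'
        · rw [List.length_take]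
          omega
        · exact hb b hb'

theorem mem_flatten_infix {A : Type} {bs : List (List A)} {b : List A} (h : b ∈ bs) :
    b <:+: bs.flatten := by
  obtain ⟨s, t, rfl⟩ := List.append_of_mem h
  exact ⟨s.flatten, t.flatten, by simp⟩

theorem lift_filter {A : Type} {P : A → Bool} {x w : List A} (h : w <:+: x.filter P) :
    ∃ w', w' <:+: x ∧ w'.filter P = w := by
  obtain ⟨s, t, h⟩ := h
  obtain ⟨l₁, l₂, rfl, h1, h2⟩ := List.filter_eq_append_iff.mp h.symm
  obtain ⟨l₃, l₄, rfl, h3, h4⟩ := List.filter_eq_append_iff.mp h1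
  exact ⟨l₄, ⟨l₃, l₂, rfl⟩, h4⟩

end H47.SW
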