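import Pool.Agent.H47.SW.PcA

/-!
MODULE PcB (about 150 lines: pl_chain, wf_full, wf_le), see the header of `PcA.lean`.
-/

set_option autoImplicit false

namespace H47.SW

variable {Γ B : Type}

private theorem pcb_flatten (L : List (B × Bool)) : (runs L).flatten = L :=
  List.flatten_splitBy _ L

private theorem pcb_ne {C m : ℕ} (f : Γ → List B) (X : Γ × Option Γ) (r : ℕ) (h1 : r < QQ C)
    (h2 : r + 1 < QQ C) (h : r + 1 < nr m f X) :
    lbl m f ((X, ⟨r, h1⟩) : Pc Γ C) ≠ lbl m f ((X, ⟨r + 1, h2⟩) : Pc Γ C) := by
  intro he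
  have hch := List.isChain_getLast_head_splitBy (fun a b : B × Bool => a.2 == b.2) (ft m f X)
  rw [List.isChain_iff_getElem] at hch
  obtain ⟨ha, hb, hab⟩ := hch r h
  have c1 := wd_const (m := m) f ((X, ⟨r, h1⟩) : Pc Γ C)
  have c2 := wd_const (m := m) f ((X, ⟨r + 1, h2⟩) : Pc Γ C)
  have h' : r < (runs (ft m f X)).length := lt_trans (Nat.lt_succ_self r) h
  have h'' : r + 1 < (runs (ft m f X)).length := h
  have w1 : wd m f ((X, ⟨r, h1⟩) : Pc Γ C) = (runs (ft m f X))[r] :=
    List.getD_eq_getElem _ _ h'
  have w2 : wd m f ((X, ⟨r + 1, h2⟩) : Pc Γ C) = (runs (ft m f X))[r + 1] :=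
    List.getD_eq_getElem _ _ h''
  rw [w1] at c1
  rw [w2] at c2
  have d1 := c1 _ (List.getLast_mem ha)
  have d2 := c2 _ (List.head_mem hb)
  rw [d1, d2, he] at hab
  simp at hab

private theorem pcb_nr_pos {C m : ℕ} {f : Γ → List B} (hf : Good C m f) (X : Γ × Option Γ) :
    0 < nr m f X := by
  by_contra h0
  have h1 : (runs (ft m f X)).length = 0 := by
    unfold nr at h0
    omega
  have h2 : runs (ft m f X) = [] := List.length_eq_zero_iff.1 h1
  have h3 := pcb_flatten (ft m f X)
  rw [h2] at h3
  have h4 := ft_length (m := m) f X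
  rw [← h3] at h4
  have h5 := hf.lo X.1
  have h6 := hf.pos
  simp at h4
  omega

private theorem pcb_getElem {Q n : ℕ} (i : ℕ) (h : i < ((List.finRange Q).take n).length) :
    (((List.finRange Q).take n)[i]).val = i := by
  rw [List.getElem_take, List.getElem_finRange]
  rfl

theorem pl_chain {C m : ℕ} {f : Γ → List B} (hf : Good C m f) (u : List Γ) :
    (PL (C := C) (nr m f) u).IsChain
      (fun p p' => lbl m f p = lbl m f p' → p.2.val + 1 = nr m f p.1 ∧ p'.2.val = 0) := by
  have hlen : ∀ X : Γ × Option Γ, ((List.finRange (QQ C)).take (nr m f X)).length = nr m f X := by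
    intro X
    rw [List.length_take, List.length_finRange]
    exact min_eq_left (nr_le hf X)
  unfold PL
  rw [List.flatMap_def, List.isChain_flatten]
  · refine ⟨?_, ?_⟩
    · intro l hl
      obtain ⟨X, _, rfl⟩ := List.mem_map.1 hl
      rw [List.isChain_map, List.isChain_iff_getElem]
      intro i hi he
      exfalso
      have hi' : i + 1 < nr m f X := by
        rw [hlen X] at hi
        exact hi
      have hQ := nr_le hf X
      refine pcb_ne (m := m) (C := C) f X i (by omega) (by omega) hi' ?_
      have e1 : ((List.finRange (QQ C)).take (nr m f X))[i] = (⟨i, by omega⟩ : Fin (QQ C)) :=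
        Fin.ext (pcb_getElem i (by omega))
      have e2 : ((List.finRange (QQ C)).take (nr m f X))[i + 1] =
          (⟨i + 1, by omega⟩ : Fin (QQ C)) :=
        Fin.ext (pcb_getElem (i + 1) hi)
      rw [e1, e2] at he
      exact he
    · rw [List.isChain_map]
      refine List.Pairwise.isChain (List.pairwise_of_forall ?_)
      intro X X' x hx y hy _
      rw [List.getLast?_map] at hx
      rw [List.head?_map] at hy
      obtain ⟨r, hr, rfl⟩ := Option.mem_map.1 hx
      obtain ⟨s, hs, rfl⟩ := Option.mem_map.1 hy
      constructor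
      · have hr' : ((List.finRange (QQ C)).take (nr m f X)).getLast? = some r := hr
        rw [List.getLast?_eq_getElem?, hlen X] at hr'
        obtain ⟨h3, h4⟩ := List.getElem?_eq_some_iff.1 hr'
        have h5 := pcb_getElem _ h3
        rw [h4] at h5
        have h6 := pcb_nr_pos hf X
        show r.val + 1 = nr m f X
        omega
      · have hs' : ((List.finRange (QQ C)).take (nr m f X')).head? = some s := hs
        rw [List.head?_eq_getElem?] at hs'
        obtain ⟨h3, h4⟩ := List.getElem?_eq_some_iff.1 hs'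
        have h5 := pcb_getElem _ h3
        rw [h4] at h5
        exact h5
  · intro h
    obtain ⟨X, _, hX⟩ := List.mem_map.1 h
    have h1 := congrArg List.length hX
    rw [List.length_map, hlen X, List.length_nil] at h1
    have h2 := pcb_nr_pos hf X
    omega

theorem wf_full {C m : ℕ} {f : Γ → List B} (hf : Good C m f) (p : Pc Γ C)
    (h1 : nr m f p.1 = 1) (h2 : p.2.val = 0) : m ≤ (wf m f p).length := by
  obtain ⟨s, hs⟩ := List.length_eq_one_iff.1 (show (runs (ft m f p.1)).length = 1 from h1)
  have h3 := pcb_flatten (ft m f p.1)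
  rw [hs] at h3
  have h4 : s = ft m f p.1 := by simpa using h3
  have h5 : wd m f p = ft m f p.1 := by
    unfold wd
    rw [hs, h2, ← h4]
    rfl
  unfold wf
  rw [List.length_map, h5, ft_length]
  exact hf.lo _

theorem wf_le {C m : ℕ} {f : Γ → List B} (hf : Good C m f) (p : Pc Γ C) :
    (wf m f p).length ≤ C * m := by
  unfold wf wd
  rw [List.length_map]
  refine le_trans ?_ (hf.hi p.1.1)
  rw [← ft_length (m := m) f p.1]
  by_cases h : p.2.val < (runs (ft m f p.1)).length
  · rw [List.getD_eq_getElem _ _ h]
    have h1 := List.sublist_flatten_of_mem (List.getElem_mem h)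
    rw [pcb_flatten] at h1
    exact h1.length_le
  · rw [List.getD_eq_default _ _ (not_lt.1 h)]
    exact Nat.zero_le _

end H47.SW
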