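import Pool.Agent.H47.SW.Rig5
import Pool.Agent.H47.SW.PcB

/-!
MODULE Cls (about 100 lines).  Finitely many classes.

`ClsT Γ C` is the product of: the numbers of blocks `(Γ × Option Γ) → Fin (QQ C + 1)` (`nr_le`), the
labels `Pc Γ C → Bool`, the tables of `rigid` for the alphabet `Dl (Pc Γ C)` with constant `2 * C` (all
`bar (wf m f)`-images have length at most `2 C m` by `wf_le`), the truth values of the equalities
between the images of short lists, and of the prefix relations between the images of lists of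
length 2 (these are coded as propositions on the subtypes of short lists, which are finite:
`List.finite_length_le`).
-/

set_option autoImplicit false

namespace H47.SW

/-- Short lists. -/
abbrev SL (P : Type) (n : ℕ) : Type := {l : List P // l.length ≤ n}

/-- The type of classes. -/
abbrev ClsT (Γ : Type) (C : ℕ) : Type :=
  (Γ × Option Γ → Fin (QQ C + 1)) × (Pc Γ C → Bool) × RCt (Dl (Pc Γ C)) (2 * C) ×
    (SL (Pc Γ C) (3 * C + 2) → SL (Pc Γ C) (3 * C + 2) → Prop) ×
    (SL (Pc Γ C) 2 → SL (Pc Γ C) 2 → Prop)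

private theorem sl_finite (P : Type) [Finite P] (n : ℕ) : Finite (SL P n) := by
  have := Fintype.ofFinite P
  exact (List.finite_length_le P n).to_subtype

theorem clsT_finite (Γ : Type) [Finite Γ] (C : ℕ) : Finite (ClsT Γ C) := by
  have h0 : Finite (Pc Γ C) := inferInstance
  have h1 : Finite (SL (Pc Γ C) (3 * C + 2)) := sl_finite _ _
  have h2 : Finite (SL (Pc Γ C) 2) := sl_finite _ _
  have h3 : Finite (Dl (Pc Γ C)) := inferInstance
  have h4 : Finite (Code (Dl (Pc Γ C)) (2 * C)) := inferInstance
  have h5 : Finite (RCt (Dl (Pc Γ C)) (2 * C)) := inferInstance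
  infer_instance

theorem cls (Γ : Type) (C : ℕ) (B : Type) :
    ∃ cl : ℕ → (Γ → List B) → ClsT Γ C, ∀ (m m' : ℕ) (f f' : Γ → List B),
      Good C m f → Good C m' f' → cl m f = cl m' f' → SC C m f m' f' := by
  classical
  obtain ⟨rc, hrc⟩ := rigid (Dl (Pc Γ C)) (2 * C) B
  refine ⟨fun m f => (fun X => ⟨min (nr m f X) (QQ C), by omega⟩, fun p => lbl m f p,
    rc m (bar (wf (C := C) m f)),
    fun l l' => l.1.flatMap (wf m f) = l'.1.flatMap (wf m f),
    fun l l' => l.1.flatMap (wf m f) <+: l'.1.flatMap (wf m f)), ?_⟩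
  intro m m' f f' hf hf' heq
  simp only [Prod.mk.injEq] at heq
  obtain ⟨e1, e2, e3, e4, e5⟩ := heq
  have hbar : ∀ (m : ℕ) (f : Γ → List B), Good C m f → ∀ x : Dl (Pc Γ C),
      (bar (wf (C := C) m f) x).length ≤ 2 * C * m := by
    intro m f hf x
    rcases x with p | ⟨p, q⟩
    · have := wf_le hf p
      simp only [bar]
      nlinarith
    · have h1 := wf_le hf p
      have h2 := wf_le hf q
      simp only [bar, List.length_append]
      nlinarith
  refine ⟨?_, ?_, ?_, ?_, ?_⟩
  · intro X
    have h1 := congrFun e1 X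
    simp only [Fin.mk.injEq] at h1
    have h2 := nr_le hf X
    have h3 := nr_le hf' X
    omega
  · intro p
    exact congrFun e2 p
  · intro l l' hl hl' h
    have h1 := congrFun (congrFun e4 ⟨l, hl⟩) ⟨l', hl'⟩
    simp only at h1
    exact h1 ▸ h
  · intro l l' hl hl' h
    have h1 := congrFun (congrFun e5 ⟨l, hl.le⟩) ⟨l', hl'.le⟩
    simp only at h1
    exact h1 ▸ h
  · exact hrc m m' _ _ hf.pos hf'.pos (hbar m f hf) (hbar m' f' hf') e3

end H47.SW
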