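import Pool.Agent.H47.SW.Res

/-!
MODULE Cmp (about 90 lines).  Families with comparable letter images.

Use `main` with `N + 1`.  It remains to see that `p ∈ S`, `p.1 x = p.2 x` imply `Spread (N + 1) p x`.
* A factor `w` with at least one letter `b` not erased by `g` has `|g(a)| <= N |g(b)| <= N |g(w)|` for
  every letter `a` (clear if `g(a) = 1`).
* Let `mu` be the least length of a nonempty letter image of `g` or `h` (if there is none then both
  counts are 0).  All letter images have length at most `N mu`; so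
  `visible g x * mu <= |g(x)| = |h(x)| <= visible h x * N mu`.
-/

set_option autoImplicit false

namespace H47.SW

open FreeMonoid

variable {A B : Type}

private lemma len_eq (g : FreeMonoid A →* FreeMonoid B) (x : FreeMonoid A) :
    (g x).length = (x.toList.map (fun a => (g (of a)).length)).sum := by
  induction x using FreeMonoid.inductionOn' with
  | one => simp
  | of_mul a u ih => simp [map_mul, FreeMonoid.length_mul, ih, FreeMonoid.toList_mul]

private lemma ne_one_iff (w : FreeMonoid B) : w ≠ 1 ↔ w.length ≠ 0 := by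
  rw [Ne, Ne, FreeMonoid.length_eq_zero]

private lemma filt_le (f : A → ℕ) (q : A → Bool) (hq : ∀ a, q a = true ↔ f a ≠ 0) (c : ℕ)
    (l : List A) (h : ∀ a ∈ l, f a ≠ 0 → c ≤ f a) : (l.filter q).length * c ≤ (l.map f).sum := by
  induction l with
  | nil => simp
  | cons a l ih =>
    have ih' := ih fun b hb => h b (List.mem_cons_of_mem _ hb)
    by_cases ha : f a = 0
    · have h1 : q a = false := by
        rw [Bool.eq_false_iff]
        intro h2
        exact (hq a).1 h2 ha
      rw [List.filter_cons_of_neg (by simp [h1]), List.map_cons, List.sum_cons, ha, zero_add]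
      exact ih'
    · have h1 : q a = true := (hq a).2 ha
      have h2 := h a List.mem_cons_self ha
      rw [List.filter_cons_of_pos h1, List.map_cons, List.sum_cons, List.length_cons, add_mul,
        one_mul]
      omega

private lemma filt_ge (f : A → ℕ) (q : A → Bool) (hq : ∀ a, q a = true ↔ f a ≠ 0) (c : ℕ)
    (l : List A) (h : ∀ a ∈ l, f a ≠ 0 → f a ≤ c) : (l.map f).sum ≤ (l.filter q).length * c := by
  induction l with
  | nil => simp
  | cons a l ih =>
    have ih' := ih fun b hb => h b (List.mem_cons_of_mem _ hb)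
    by_cases ha : f a = 0
    · have h1 : q a = false := by
        rw [Bool.eq_false_iff]
        intro h2
        exact (hq a).1 h2 ha
      rw [List.filter_cons_of_neg (by simp [h1]), List.map_cons, List.sum_cons, ha, zero_add]
      exact ih'
    · have h1 : q a = true := (hq a).2 ha
      have h2 := h a List.mem_cons_self ha
      rw [List.filter_cons_of_pos h1, List.map_cons, List.sum_cons, List.length_cons, add_mul,
        one_mul]
      omega

private lemma fac_ok {N : ℕ} {g : FreeMonoid A →* FreeMonoid B}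
    (hg : ∀ a b, g (of a) ≠ 1 → g (of b) ≠ 1 → (g (of a)).length ≤ N * (g (of b)).length)
    {w : FreeMonoid A} (hw : N + 1 ≤ visible g w) (a : A) :
    (g (of a)).length ≤ (N + 1) * (g w).length := by
  classical
  have h1 : w.toList.filter (fun a => decide (g (of a) ≠ 1)) ≠ [] := by
    intro h
    unfold visible at hw
    rw [h] at hw
    simp at hw
  obtain ⟨b, hb⟩ := List.exists_mem_of_ne_nil _ h1
  rw [List.mem_filter] at hb
  obtain ⟨hb1, hb2⟩ := hb
  have hb3 : g (of b) ≠ 1 := of_decide_eq_true hb2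
  have h2 : (g (of b)).length ≤ (g w).length := by
    rw [len_eq g w]
    exact List.single_le_sum (fun _ _ => Nat.zero_le _) _
      (List.mem_map_of_mem (f := fun a => (g (of a)).length) hb1)
  by_cases ha : g (of a) = 1
  · rw [ha]
    simp
  · calc (g (of a)).length ≤ N * (g (of b)).length := hg a b ha hb3
      _ ≤ (N + 1) * (g w).length := Nat.mul_le_mul (Nat.le_succ N) h2

private lemma vis_le {N : ℕ} {g h : FreeMonoid A →* FreeMonoid B} {x : FreeMonoid A}
    (hgh : ∀ a b, g (of a) ≠ 1 → h (of b) ≠ 1 → (h (of b)).length ≤ N * (g (of a)).length)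
    (hx : g x = h x) : visible g x ≤ (N + 1) * visible h x := by
  classical
  set f : A → ℕ := fun a => (g (of a)).length with hf
  set k : A → ℕ := fun a => (h (of a)).length with hk
  have hlen : (x.toList.map f).sum = (x.toList.map k).sum := by
    rw [hf, hk, ← len_eq g x, ← len_eq h x, hx]
  have hqf : ∀ a, decide (g (of a) ≠ 1) = true ↔ f a ≠ 0 := fun a => by
    rw [decide_eq_true_iff, ne_one_iff]
  have hqk : ∀ a, decide (h (of a) ≠ 1) = true ↔ k a ≠ 0 := fun a => by
    rw [decide_eq_true_iff, ne_one_iff]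
  have hvg : visible g x = (x.toList.filter (fun a => decide (g (of a) ≠ 1))).length := by
    unfold visible
    congr
  have hvh : visible h x = (x.toList.filter (fun a => decide (h (of a) ≠ 1))).length := by
    unfold visible
    congr
  by_cases hex : ∃ n, ∃ a ∈ x.toList, f a ≠ 0 ∧ f a = n
  · obtain ⟨a, ha, ha0, ham⟩ := Nat.find_spec hex
    have hmin : ∀ b ∈ x.toList, f b ≠ 0 → f a ≤ f b := fun b hb hb0 => by
      rw [ham]
      exact Nat.find_min' hex ⟨b, hb, hb0, rfl⟩
    have h1 := filt_le f (fun a => decide (g (of a) ≠ 1)) hqf (f a) x.toList hmin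
    have h2 := filt_ge k (fun a => decide (h (of a) ≠ 1)) hqk (N * f a) x.toList
      fun b _ hb0 => hgh a b ((ne_one_iff _).2 ha0) ((ne_one_iff _).2 hb0)
    rw [← hvg] at h1
    rw [← hvh] at h2
    have h3 : visible g x * f a ≤ (N * visible h x) * f a := by
      calc visible g x * f a ≤ visible h x * (N * f a) := by omega
        _ = (N * visible h x) * f a := by ring
    have h4 := Nat.le_of_mul_le_mul_right h3 (Nat.pos_of_ne_zero ha0)
    calc visible g x ≤ N * visible h x := h4
      _ ≤ (N + 1) * visible h x := Nat.mul_le_mul_right _ (Nat.le_succ N)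
  · have h1 : x.toList.filter (fun a => decide (g (of a) ≠ 1)) = [] := by
      rw [List.filter_eq_nil_iff]
      intro a ha h2
      exact hex ⟨f a, a, ha, (hqf a).1 h2, rfl⟩
    rw [hvg, h1]
    simp

/-- Special case: in all pairs of `S` the nonempty images of letters have lengths within a factor
`N` of each other.  No condition on the words. -/
theorem comparable (A : Type) [Finite A] (N : ℕ) :
    ∃ K : ℕ, ∀ (B : Type)
      (S : Set ((FreeMonoid A →* FreeMonoid B) × (FreeMonoid A →* FreeMonoid B))),
      (∀ p ∈ S, ∀ w ∈ {w | ∃ a, w = p.1 (of a) ∨ w = p.2 (of a)},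
        ∀ w' ∈ {w | ∃ a, w = p.1 (of a) ∨ w = p.2 (of a)}, w ≠ 1 → w' ≠ 1 →
          w.length ≤ N * w'.length) →
      ∃ T ⊆ S, T.Finite ∧ T.ncard ≤ K ∧
        (⋂ p ∈ T, {x : FreeMonoid A | p.1 x = p.2 x}) =
          ⋂ p ∈ S, {x : FreeMonoid A | p.1 x = p.2 x} := by
  obtain ⟨K, hK⟩ := main A (N + 1)
  refine ⟨K, fun B S hS => ?_⟩
  obtain ⟨T, hTS, hTf, hTc, hT⟩ := hK B S
  refine ⟨T, hTS, hTf, hTc, Set.Subset.antisymm ?_ (Set.biInter_subset_biInter_left hTS)⟩
  intro x hx
  simp only [Set.mem_iInter, Set.mem_ofPred_eq] at hx ⊢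
  refine hT x fun p hp => ⟨hx p hp, ?_⟩
  have hc := hS p (hTS hp)
  refine ⟨fun y w z _ hw a => fac_ok (N := N) (fun a b ha hb =>
      hc _ ⟨a, Or.inl rfl⟩ _ ⟨b, Or.inl rfl⟩ ha hb) hw a,
    fun y w z _ hw a => fac_ok (N := N) (fun a b ha hb =>
      hc _ ⟨a, Or.inr rfl⟩ _ ⟨b, Or.inr rfl⟩ ha hb) hw a,
    vis_le (fun a b ha hb => hc _ ⟨b, Or.inr rfl⟩ _ ⟨a, Or.inl rfl⟩ hb ha) (hx p hp),
    vis_le (fun a b ha hb => hc _ ⟨b, Or.inl rfl⟩ _ ⟨a, Or.inr rfl⟩ hb ha) (hx p hp).symm⟩

end H47.SW
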