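import Pool.Agent.H47.SW.Loc

/-!
MODULE Cnt (about 150 lines).  The number of constant blocks of a prefix of a labelling.

`runs L = L.splitBy (fun a b => a.2 == b.2)`; Mathlib has `List.flatten_splitBy`,
`List.nil_notMem_splitBy`, `List.isChain_of_mem_splitBy`, `List.splitBy_append_cons`,
`List.splitBy_append`, ... .

CLAIM 1. If `L` is an infix (prefix of a suffix) of `lab m V` whose first label is `true` then
`m * (runs L).length <= 8 * L.length + 2 * m`.  Strong induction on `L.length`: let `r1` be the
first block (`true`), `r2` the second (`false`), `L = r1 ++ r2 ++ L'`.  If there are at most two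
blocks: clear.  Otherwise `L'` is nonempty with first label `true`, `runs L = r1 :: r2 :: runs L'`,
and `m < 4 (r1.length + r2.length)` by `lab_gap` (applied to the suffix of `lab m V` beginning with
`L`, see `lab_suffix`).  So `m * (2 + (runs L').length) <= 2 m + 8 L'.length + 2 m`
`<= 8 L.length + 2 m`.
CLAIM 2. In general drop the first block if it is `false`: one more block, hence `3 * m`.
-/

set_option autoImplicit false

namespace H47.SW

variable {Γ B : Type}

private theorem cnt_split (c : Bool) (L : List (B × Bool)) : ∃ L1 L2, L = L1 ++ L2 ∧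
    (∀ x ∈ L1, x.2 = c) ∧ (∀ x, L2.head? = some x → x.2 ≠ c) := by
  induction L with
  | nil => exact ⟨[], [], rfl, by simp, by simp⟩
  | cons a L ih =>
    by_cases h : a.2 = c
    · obtain ⟨L1, L2, e, h1, h2⟩ := ih
      refine ⟨a :: L1, L2, by rw [e]; rfl, ?_, h2⟩
      intro x hx
      rcases List.mem_cons.1 hx with rfl | hx
      · exact h
      · exact h1 x hx
    · refine ⟨[], a :: L, rfl, by simp, ?_⟩
      intro x hx
      simp only [List.head?_cons, Option.some.injEq] at hx
      rw [← hx]
      exact h

private theorem cnt_chain (c : Bool) (L : List (B × Bool)) (h : ∀ x ∈ L, x.2 = c) :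
    L.IsChain (fun x y => (x.2 == y.2) = true) := by
  induction L with
  | nil => exact List.IsChain.nil
  | cons a L ih =>
    cases L with
    | nil => exact List.IsChain.singleton a
    | cons b L =>
      refine List.IsChain.cons_cons ?_ (ih fun x hx => h x (List.mem_cons_of_mem _ hx))
      have h1 := h a (by simp)
      have h2 := h b (by simp)
      simp [h1, h2]

/-- The first block of a nonempty list. -/
private theorem cnt_dec (L : List (B × Bool)) (hL : L ≠ []) : ∃ (c : Bool) (L1 L2 : List (B × Bool)),
    L = L1 ++ L2 ∧ L1 ≠ [] ∧ (∀ x ∈ L1, x.2 = c) ∧ (∀ x, L2.head? = some x → x.2 ≠ c) ∧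
      (∀ x, L.head? = some x → x.2 = c) ∧ runs L = L1 :: runs L2 := by
  cases L with
  | nil => exact absurd rfl hL
  | cons a L =>
    obtain ⟨L1, L2, e, h1, h2⟩ := cnt_split a.2 L
    have h3 : ∀ x ∈ a :: L1, x.2 = a.2 := by
      intro x hx
      rcases List.mem_cons.1 hx with rfl | hx
      · rfl
      · exact h1 x hx
    refine ⟨a.2, a :: L1, L2, by rw [e]; rfl, by simp, h3, h2, ?_, ?_⟩
    · intro x hx
      simp only [List.head?_cons, Option.some.injEq] at hx
      rw [← hx]
    · have e2 : a :: L = (a :: L1) ++ L2 := by rw [e]; rfl
      rw [e2]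
      unfold runs
      rw [List.splitBy_append, List.splitBy_of_isChain (by simp) (cnt_chain a.2 _ h3)]
      · rfl
      · intro x hx y hy
        have hx' : x ∈ a :: L1 := List.mem_of_getLast? hx
        have e3 := h3 x hx'
        have e4 := h2 y hy
        rw [e3]
        simpa using fun h => e4 h.symm

private theorem cnt_true {m : ℕ} (hm : 0 < m) : ∀ (n : ℕ) (L : List (B × Bool)), L.length ≤ n →
    ∀ V : List B, L <+: lab m V → (∀ x, L.head? = some x → x.2 = true) →
      m * (runs L).length ≤ 8 * L.length + 2 * m := by
  intro n
  induction n with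
  | zero =>
    intro L hL V _ _
    have : L = [] := List.length_eq_zero_iff.1 (Nat.le_zero.1 hL)
    subst this
    simp [runs]
  | succ n ih =>
    intro L hL V hV ht
    by_cases h0 : L = []
    · subst h0
      simp [runs]
    obtain ⟨c1, L1, L2, e1, n1, a1, b1, d1, r1⟩ := cnt_dec L h0
    have hc1 : c1 = true := by
      obtain ⟨x, hx⟩ : ∃ x, L.head? = some x := by
        cases L with
        | nil => exact absurd rfl h0
        | cons x _ => exact ⟨x, rfl⟩
      rw [← d1 x hx]
      exact ht x hx
    subst hc1
    by_cases h2 : L2 = []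
    · subst h2
      rw [r1]
      simp only [runs, List.splitBy_nil, List.length_cons, List.length_nil]
      omega
    obtain ⟨c2, L3, L4, e2, n2, a2, b2, d2, r2⟩ := cnt_dec L2 h2
    have hc2 : c2 = false := by
      obtain ⟨x, hx⟩ : ∃ x, L2.head? = some x := by
        cases L2 with
        | nil => exact absurd rfl h2
        | cons x _ => exact ⟨x, rfl⟩
      have h3 := d2 x hx
      have h4 := b1 x hx
      rw [h3] at h4
      simpa using h4
    subst hc2
    by_cases h4 : L4 = []
    · subst h4
      rw [r1, r2]
      simp only [runs, List.splitBy_nil, List.length_cons, List.length_nil]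
      omega
    obtain ⟨post, hp⟩ := hV
    have hlab : lab m V = L1 ++ (L3 ++ (L4 ++ post)) := by
      rw [← hp, e1, e2]
      simp only [List.append_assoc]
    have t4 : ∀ x, L4.head? = some x → x.2 = true := by
      intro x hx
      have := b2 x hx
      simpa using this
    have hgap := lab_gap hm hlab n1 n2 (by simp [h4]) a1 a2 (by
      intro x hx
      refine t4 x ?_
      cases L4 with
      | nil => exact absurd rfl h4
      | cons y _ => simpa using hx)
    have hsuf : L4 ++ post = lab m ((L4 ++ post).map Prod.fst) := by
      refine lab_suffix (W := V) (L1 := L1 ++ L3) ?_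
      rw [hlab, List.append_assoc]
    have hlen : L.length = L1.length + (L3.length + L4.length) := by
      rw [e1, e2]
      simp only [List.length_append]
    have hpos : 0 < L1.length := List.length_pos_iff.2 n1
    have hi := ih L4 (by omega) _ ⟨post, hsuf⟩ t4
    rw [r1, r2]
    simp only [List.length_cons]
    rw [hlen]
    have e5 : m * ((runs L4).length + 1 + 1) = m * (runs L4).length + 2 * m := by ring
    rw [e5]
    omega

theorem cnt {m : ℕ} {V : List B} {L : List (B × Bool)} (hm : 0 < m) (h : L <+: lab m V) :
    m * (runs L).length ≤ 8 * L.length + 3 * m := by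
  by_cases h0 : L = []
  · subst h0
    simp [runs]
  obtain ⟨c1, L1, L2, e1, n1, a1, b1, d1, r1⟩ := cnt_dec L h0
  by_cases hc : c1 = true
  · subst hc
    have := cnt_true hm L.length L le_rfl V h d1
    omega
  · have hc' : c1 = false := by simpa using hc
    subst hc'
    obtain ⟨post, hp⟩ := h
    have hsuf : L2 ++ post = lab m ((L2 ++ post).map Prod.fst) := by
      refine lab_suffix (W := V) (L1 := L1) ?_
      rw [← hp, e1, List.append_assoc]
    have t2 : ∀ x, L2.head? = some x → x.2 = true := by
      intro x hx
      have := b1 x hx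
      simpa using this
    have := cnt_true hm L2.length L2 le_rfl _ ⟨post, hsuf⟩ t2
    have hlen : L.length = L1.length + L2.length := by
      rw [e1, List.length_append]
    rw [r1]
    simp only [List.length_cons]
    rw [hlen]
    have e5 : m * ((runs L2).length + 1) = m * (runs L2).length + m := by ring
    rw [e5]
    omega

theorem nr_le {C m : ℕ} {f : Γ → List B} (hf : Good C m f) (X : Γ × Option Γ) :
    nr m f X ≤ QQ C := by
  have h1 : ft m f X <+: lab m (f X.1 ++ X.2.elim [] f) := List.take_prefix _ _
  have h2 := cnt hf.pos h1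
  rw [ft_length] at h2
  have h3 := hf.hi X.1
  have h4 : m * nr m f X ≤ m * QQ C := by
    unfold nr QQ
    calc m * (runs (ft m f X)).length ≤ 8 * (f X.1).length + 3 * m := h2
      _ ≤ 8 * (C * m) + 3 * m := by omega
      _ = m * (8 * C + 3) := by ring
  exact Nat.le_of_mul_le_mul_left h4 hf.pos

end H47.SW
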