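import Mathlib

/-!
Finite determination of equality sets on spread words: definitions.

`Γ` is a finite alphabet, `B` any alphabet, a morphism `Γ^* → B^*` is given by its letter images
`f : Γ → List B` and the image of `u` is `u.flatMap f`.  `m` is the scale: all letter images have
length between `m` and `C * m`.
-/

set_option autoImplicit false

namespace H47.SW

variable {Γ B : Type}

/-- `w` has the period `p`. -/
def HasPer (p : ℕ) (w : List B) : Prop := ∀ i, i + p < w.length → w[i]? = w[i + p]?

/-- `w` has a positive period at most `m / 8`. -/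
def PerW (m : ℕ) (w : List B) : Prop := ∃ p, 0 < p ∧ 8 * p ≤ m ∧ HasPer p w

/-- The window length, `⌈m / 2⌉`. -/
def hw (m : ℕ) : ℕ := (m + 1) / 2

/-- The window at the beginning of `V` exists and has a period at most `m / 8`. -/
def Pm (m : ℕ) (V : List B) : Prop := hw m ≤ V.length ∧ PerW m (V.take (hw m))

/-- No factor of length at least `m / 2` has a period at most `m / 8`. -/
def Aper (m : ℕ) (w : List B) : Prop := ∀ z, z <:+: w → m ≤ 2 * z.length → ¬ PerW m z

open Classical in
/-- The word `W` in which every position is labelled: `true` iff the window of length `hw m`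
starting there exists and has a period at most `m / 8`. -/
noncomputable def lab (m : ℕ) : List B → List (B × Bool)
  | [] => []
  | b :: V => (b, decide (Pm m (b :: V))) :: lab m V

/-- The maximal blocks of constant label. -/
def runs (L : List (B × Bool)) : List (List (B × Bool)) := L.splitBy (fun a b => a.2 == b.2)

/-- Every letter together with its successor. -/
def ext : List Γ → List (Γ × Option Γ)
  | [] => []
  | x :: u => (x, u.head?) :: ext u

/-- The labelled image of a letter followed by a letter (or by nothing). -/
noncomputable def ft (m : ℕ) (f : Γ → List B) (X : Γ × Option Γ) : List (B × Bool) :=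
  (lab m (f X.1 ++ X.2.elim [] f)).take (f X.1).length

/-- All letter images have length between `m` and `C * m`, and `m > 0`. -/
structure Good (C m : ℕ) (f : Γ → List B) : Prop where
  pos : 0 < m
  lo : ∀ x, m ≤ (f x).length
  hi : ∀ x, (f x).length ≤ C * m

/-- The maximal number of constant blocks in the labelled image of a letter. -/
def QQ (C : ℕ) : ℕ := 8 * C + 3

/-- Pieces: the `r`-th constant block of the labelled image of `X`. -/
abbrev Pc (Γ : Type) (C : ℕ) : Type := (Γ × Option Γ) × Fin (QQ C)

/-- The labelled word of a piece (empty for invalid pieces). -/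
noncomputable def wd {C : ℕ} (m : ℕ) (f : Γ → List B) (p : Pc Γ C) : List (B × Bool) :=
  (runs (ft m f p.1)).getD p.2.val []

/-- The word of a piece. -/
noncomputable def wf {C : ℕ} (m : ℕ) (f : Γ → List B) (p : Pc Γ C) : List B :=
  (wd m f p).map Prod.fst

/-- The number of constant blocks of `X`. -/
noncomputable def nr (m : ℕ) (f : Γ → List B) (X : Γ × Option Γ) : ℕ := (runs (ft m f X)).length

/-- The label of a piece. -/
noncomputable def lbl {C : ℕ} (m : ℕ) (f : Γ → List B) (p : Pc Γ C) : Bool :=
  ((wd m f p).head?.map Prod.snd).getD false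

/-- The list of pieces of a word; it depends only on the numbers `n X` of blocks. -/
def PL {C : ℕ} (n : Γ × Option Γ → ℕ) (u : List Γ) : List (Pc Γ C) :=
  (ext u).flatMap (fun X => ((List.finRange (QQ C)).take (n X)).map (fun r => (X, r)))

/-- Interior pieces of `l` have images of length at least `m`. -/
def IntFull {P : Type} (m : ℕ) (g : P → List B) (l : List P) : Prop :=
  ∀ a p b, l = a ++ p :: b → a ≠ [] → b ≠ [] → m ≤ (g p).length

/-- Alphabet of pieces and pairs of pieces. -/
abbrev Dl (P : Type) : Type := P ⊕ (P × P)

/-- The morphism on pieces and pairs of pieces. -/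
def bar {P : Type} (g : P → List B) : Dl P → List B
  | Sum.inl p => g p
  | Sum.inr (p, q) => g p ++ g q

/-- The transfer property of rigid pairs: what the kernel of `g` (scale `m`) says about the
kernel of `g'`. -/
def Trans {D : Type} (m : ℕ) (g g' : D → List B) : Prop :=
  ∀ U V : List D, (∀ x ∈ U, m ≤ (g x).length) → (∀ x ∈ V, m ≤ (g x).length) →
    U.flatMap g = V.flatMap g → Aper m (U.flatMap g) → U.flatMap g' = V.flatMap g'

/-- `(m, f)` and `(m', f')` are in the same class (for pieces with parameter `C`). -/
structure SC (C : ℕ) (m : ℕ) (f : Γ → List B) (m' : ℕ) (f' : Γ → List B) : Prop where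
  nr_eq : ∀ X, nr m f X = nr m' f' X
  lbl_eq : ∀ p : Pc Γ C, lbl m f p = lbl m' f' p
  short : ∀ l l' : List (Pc Γ C), l.length ≤ 3 * C + 2 → l'.length ≤ 3 * C + 2 →
    l.flatMap (wf m f) = l'.flatMap (wf m f) → l.flatMap (wf m' f') = l'.flatMap (wf m' f')
  cmp : ∀ l l' : List (Pc Γ C), l.length = 2 → l'.length = 2 →
    l.flatMap (wf m f) <+: l'.flatMap (wf m f) → l.flatMap (wf m' f') <+: l'.flatMap (wf m' f')
  rig : Trans m (bar (wf (C := C) m f)) (bar (wf (C := C) m' f'))

end H47.SW
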