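import Pool.Agent.H47.SW.FinD
import Pool.Agent.H47.SW.Blk

/-!
MODULE FinA (about 150 lines).  One pair `(g, h)` and one spread word `x` with `g(x) = h(x)`.

Let `y`, `z` be `x` with the letters erased by `g`, `h` deleted, so `y.flatMap g = x.flatMap g`,
`y.length = vis g x`, and similarly for `z`, `h`.
`G` = maximal length of `g a`, `H` = maximal length of `h a`, `M = max G H`,
`scale N g h = max 1 ⌈M / (2 N^4)⌉`.

* `scale_pos`, `two_le`: `(two N g h w).length <= 2 N M <= 4 N^5 * scale`.
* `two_ge`: let `y.length >= N`, `z.length >= N` and let `bs`, `cs` be cuttings of `y`, `z` into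
  blocks of length in `[N, 2N)`.  Then `scale <= |g(b)|` for `b ∈ bs`, `scale <= |h(c)|` for `c ∈ cs`.
  Proof: `b` is a factor of `y`, hence (`lift_filter`) `b = w'` filtered with `w'` a factor of `x`,
  `vis g w' = b.length >= N`, so `G <= N |g(b)|`.  Summing over the blocks,
  `bs.length * G <= N |g(y)|`, and `y.length <= 2 N bs.length`, so
  `y.length * G <= 2 N^2 |g(y)| = 2 N^2 |h(z)| <= 2 N^2 * z.length * H <= 2 N^3 * y.length * H`;
  as `y.length > 0` we get `G <= 2 N^3 H`, and symmetrically `H <= 2 N^3 G`.  So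
  `M <= 2 N^3 G <= 2 N^4 |g(b)|`, i.e. `⌈M / (2 N^4)⌉ <= |g(b)|`, and `1 <= |g(b)|` because `b` is a
  nonempty word in letters which are not erased by `g`.
-/

set_option autoImplicit false

namespace H47.SW

variable {A B : Type}

open Classical in
/-- `x` without the letters erased by `g`. -/
noncomputable def red (g : A → List B) (x : List A) : List A :=
  x.filter (fun a => decide (g a ≠ []))

theorem red_flatMap (g : A → List B) (x : List A) : (red g x).flatMap g = x.flatMap g := by
  classical
  unfold red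
  induction x with
  | nil => rfl
  | cons a x ih =>
    by_cases h : g a = []
    · rw [List.filter_cons_of_neg (by simp [h]), ih, List.flatMap_cons, h, List.nil_append]
    · rw [List.filter_cons_of_pos (by simp [h]), List.flatMap_cons, List.flatMap_cons, ih]

/-- The maximal length of a letter image. -/
noncomputable def mx (g : A → List B) : ℕ := ⨆ a, (g a).length

/-- The scale of a pair. -/
noncomputable def scale (N : ℕ) (g h : A → List B) : ℕ :=
  max 1 ((max (mx g) (mx h) + (2 * N ^ 4 - 1)) / (2 * N ^ 4))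

theorem scale_pos (N : ℕ) (g h : A → List B) : 0 < scale N g h :=
  lt_of_lt_of_le Nat.one_pos (le_max_left _ _)

private theorem le_mx [Finite A] (g : A → List B) (a : A) : (g a).length ≤ mx g :=
  le_ciSup (f := fun a => (g a).length) (Set.finite_range _).bddAbove a

private theorem flatMap_length_le [Finite A] (g : A → List B) (w : List A) :
    (w.flatMap g).length ≤ w.length * mx g := by
  induction w with
  | nil => simp
  | cons a w ih =>
    rw [List.flatMap_cons, List.length_append, List.length_cons, Nat.succ_mul]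
    have := le_mx g a
    omega

private theorem le_scale {N : ℕ} (hN : 0 < N) (g h : A → List B) :
    max (mx g) (mx h) ≤ 2 * N ^ 4 * scale N g h := by
  have hd : 0 < 2 * N ^ 4 := by positivity
  have h1 : (max (mx g) (mx h) + (2 * N ^ 4 - 1)) / (2 * N ^ 4) ≤ scale N g h := le_max_right _ _
  have h2 : 2 * N ^ 4 * ((max (mx g) (mx h) + (2 * N ^ 4 - 1)) / (2 * N ^ 4)) ≤
      2 * N ^ 4 * scale N g h := Nat.mul_le_mul_left _ h1
  have h3 := Nat.div_add_mod (max (mx g) (mx h) + (2 * N ^ 4 - 1)) (2 * N ^ 4)
  have h4 := Nat.mod_lt (max (mx g) (mx h) + (2 * N ^ 4 - 1)) hd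
  omega

theorem two_le [Finite A] {N : ℕ} (hN : 0 < N) (g h : A → List B) (w : WB A N ⊕ WB A N) :
    (two N g h w).length ≤ 4 * N ^ 5 * scale N g h := by
  have key : ∀ (f : A → List B) (w : WB A N), mx f ≤ 2 * N ^ 4 * scale N g h →
      (w.val.flatMap f).length ≤ 4 * N ^ 5 * scale N g h := by
    intro f w hf
    calc (w.val.flatMap f).length ≤ w.val.length * mx f := flatMap_length_le f _
      _ ≤ (2 * N) * (2 * N ^ 4 * scale N g h) := Nat.mul_le_mul w.2.le hf
      _ = 4 * N ^ 5 * scale N g h := by ring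
  have hs := le_scale hN g h
  cases w with
  | inl w => exact key g w ((le_max_left _ _).trans hs)
  | inr w => exact key h w ((le_max_right _ _).trans hs)

private theorem block_mx {N : ℕ} (g : A → List B) {x : List A}
    (hs : ∀ w, w <:+: x → N ≤ vis g w → ∀ a, (g a).length ≤ N * (w.flatMap g).length)
    {bs : List (List A)} (hb : bs.flatten = red g x) (hb' : ∀ b ∈ bs, N ≤ b.length)
    (b : List A) (hbm : b ∈ bs) : mx g ≤ N * (b.flatMap g).length := by
  classical
  have h1 : b <:+: red g x := hb ▸ mem_flatten_infix hbm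
  obtain ⟨w', hw', hwb⟩ := lift_filter (P := fun a => decide (g a ≠ [])) (x := x) (w := b) h1
  have h2 : N ≤ vis g w' := by
    unfold vis
    rw [hwb]
    exact hb' b hbm
  have h3 : w'.flatMap g = b.flatMap g := by
    rw [← red_flatMap g w']
    unfold red
    rw [hwb]
  refine ciSup_le' fun a => ?_
  rw [← h3]
  exact hs w' hw' h2 a

private theorem sum_blocks {N G : ℕ} (g : A → List B) (bs : List (List A))
    (h : ∀ b ∈ bs, G ≤ N * (b.flatMap g).length) (h' : ∀ b ∈ bs, b.length ≤ 2 * N) :
    bs.flatten.length * G ≤ 2 * N ^ 2 * (bs.flatten.flatMap g).length := by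
  induction bs with
  | nil => simp
  | cons b bs ih =>
    have h1 := ih (fun c hc => h c (List.mem_cons_of_mem _ hc))
      (fun c hc => h' c (List.mem_cons_of_mem _ hc))
    have h2 := h b List.mem_cons_self
    have h3 := h' b List.mem_cons_self
    rw [List.flatten_cons, List.length_append, List.flatMap_append, List.length_append]
    have h4 : b.length * G ≤ (2 * N) * (N * (b.flatMap g).length) := Nat.mul_le_mul h3 h2
    calc (b.length + bs.flatten.length) * G = b.length * G + bs.flatten.length * G := by ring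
      _ ≤ (2 * N) * (N * (b.flatMap g).length) +
          2 * N ^ 2 * (bs.flatten.flatMap g).length := Nat.add_le_add h4 h1
      _ = _ := by ring

private theorem mx_le [Finite A] {N : ℕ} {g h : A → List B} {x : List A}
    (hx : x.flatMap g = x.flatMap h)
    (hs : ∀ w, w <:+: x → N ≤ vis g w → ∀ a, (g a).length ≤ N * (w.flatMap g).length)
    (hv : vis h x ≤ N * vis g x)
    {bs : List (List A)} (hb : bs.flatten = red g x)
    (hb' : ∀ b ∈ bs, N ≤ b.length ∧ b.length < 2 * N) (h1 : 0 < (red g x).length) :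
    mx g ≤ 2 * N ^ 3 * mx h := by
  have h2 := sum_blocks (G := mx g) g bs
    (fun b hbm => block_mx g hs hb (fun b hb => (hb' b hb).1) b hbm)
    (fun b hbm => (hb' b hbm).2.le)
  rw [hb, red_flatMap, hx, ← red_flatMap h x] at h2
  have h3 : ((red h x).flatMap h).length ≤ (red h x).length * mx h := flatMap_length_le h _
  have h4 : (red h x).length ≤ N * (red g x).length := hv
  have h5 : (red g x).length * mx g ≤ (red g x).length * (2 * N ^ 3 * mx h) := by
    calc (red g x).length * mx g ≤ 2 * N ^ 2 * ((red h x).flatMap h).length := h2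
      _ ≤ 2 * N ^ 2 * ((N * (red g x).length) * mx h) :=
          Nat.mul_le_mul_left _ (h3.trans (Nat.mul_le_mul_right _ h4))
      _ = _ := by ring
  exact Nat.le_of_mul_le_mul_left h5 h1

private theorem scale_le {N : ℕ} (hN : 0 < N) {g h : A → List B} {x : List A}
    (hs : ∀ w, w <:+: x → N ≤ vis g w → ∀ a, (g a).length ≤ N * (w.flatMap g).length)
    (hm : mx h ≤ 2 * N ^ 3 * mx g)
    {bs : List (List A)} (hb : bs.flatten = red g x)
    (hb' : ∀ b ∈ bs, N ≤ b.length ∧ b.length < 2 * N) (b : List A) (hbm : b ∈ bs) :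
    max 1 ((max (mx g) (mx h) + (2 * N ^ 4 - 1)) / (2 * N ^ 4)) ≤ (b.flatMap g).length := by
  classical
  have h1 := block_mx g hs hb (fun b hb => (hb' b hb).1) b hbm
  have hN3 : 1 ≤ 2 * N ^ 3 := by
    have : 0 < N ^ 3 := by positivity
    omega
  have hmm : max (mx g) (mx h) ≤ 2 * N ^ 3 * mx g :=
    max_le (by simpa using Nat.mul_le_mul_right (mx g) hN3) hm
  have h2 : max (mx g) (mx h) ≤ 2 * N ^ 4 * (b.flatMap g).length := by
    calc max (mx g) (mx h) ≤ 2 * N ^ 3 * mx g := hmm
      _ ≤ 2 * N ^ 3 * (N * (b.flatMap g).length) := Nat.mul_le_mul_left _ h1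
      _ = _ := by ring
  refine max_le ?_ ?_
  · -- the block is nonempty and its letters are not erased
    have h3 : 0 < b.length := lt_of_lt_of_le hN (hb' b hbm).1
    obtain ⟨a, b', rfl⟩ := List.exists_cons_of_length_pos h3
    have h4 : (a :: b') <:+: red g x := hb ▸ mem_flatten_infix hbm
    have h5 : a ∈ red g x := h4.subset List.mem_cons_self
    have h6 : g a ≠ [] := by
      unfold red at h5
      simpa using (List.mem_filter.1 h5).2
    rw [List.flatMap_cons, List.length_append]
    have := List.length_pos_iff.2 h6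
    omega
  · have hd : 0 < 2 * N ^ 4 := by positivity
    refine Nat.lt_succ_iff.1 (Nat.div_lt_of_lt_mul ?_)
    rw [Nat.mul_succ]
    omega

theorem two_ge [Finite A] {N : ℕ} (hN : 0 < N) {g h : A → List B} {x : List A}
    (hx : x.flatMap g = x.flatMap h) (hs : Spr N g h x)
    {bs cs : List (List A)} (hb : bs.flatten = red g x) (hc : cs.flatten = red h x)
    (hb' : ∀ b ∈ bs, N ≤ b.length ∧ b.length < 2 * N)
    (hc' : ∀ c ∈ cs, N ≤ c.length ∧ c.length < 2 * N)
    (h1 : N ≤ (red g x).length) (h2 : N ≤ (red h x).length) :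
    (∀ b ∈ bs, scale N g h ≤ (b.flatMap g).length) ∧
      ∀ c ∈ cs, scale N g h ≤ (c.flatMap h).length := by
  obtain ⟨hsg, hsh, hv1, hv2⟩ := hs
  have m1 : mx g ≤ 2 * N ^ 3 * mx h := mx_le hx hsg hv2 hb hb' (by omega)
  have m2 : mx h ≤ 2 * N ^ 3 * mx g := mx_le hx.symm hsh hv1 hc hc' (by omega)
  refine ⟨fun b hbm => scale_le hN hsg m2 hb hb' b hbm, fun c hcm => ?_⟩
  have := scale_le hN hsh m1 hc hc' c hcm
  unfold scale
  rw [max_comm (mx g) (mx h)]
  exact this

end H47.SW
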