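import Pool.Agent.H47.SW.KerL
import Pool.Agent.H47.SW.FinA

/-!
MODULE FinB (about 150 lines).  The final theorem for morphisms given by letter images.

WLOG `N >= 1` (`Spr N` implies `Spr (N + 1)`; use `N + 1` throughout).
Classes of pairs `p = (g, h)`: the set of letters erased by `g`, the set of letters erased by `h`,
and the truth values of `y.flatMap g = z.flatMap h` for all words `y`, `z` of length at most `N^2`.
There are finitely many classes (`List.finite_length_le`); their number depends on `A` and `N` only.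
For a class `c` apply `ker_letters` for the alphabet `WB A N ⊕ WB A N` (finite) and `C = 4 N^5` to
`F_c = {(scale N g h, two N g h) : (g, h) ∈ S of class c}`, choose preimages in `S` of the elements of
the set obtained; `T` is the union over the classes.

Let `x` satisfy the hypothesis for all `p ∈ T`, and `p' = (g', h') ∈ S` of class `c`.  There is
`p = (g, h) ∈ T` of class `c`.  `red g x = red g' x =: y`, `red h x = red h' x =: z` (same erased
letters).
* If `y.length < N` or `z.length < N`: by `Spr` (`y.length = vis g x <= N vis h x` etc.) both have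
  length `<= N^2`; `y.flatMap g = x.flatMap g = x.flatMap h = z.flatMap h`, so by the class
  `y.flatMap g' = z.flatMap h'`, i.e. `x.flatMap g' = x.flatMap h'` (`red_flatMap`).
* Otherwise cut `y`, `z` into blocks (`blocks`): `bs`, `cs`; let `u` be the list of the left copies of
  the `bs`, `v` the list of the right copies of the `cs` (`List.attach`/`pmap`).
  `u.flatMap (two N g h) = y.flatMap g`, `v.flatMap (two N g h) = z.flatMap h`.  For all `p ∈ T` of
  class `c` the hypotheses of `ker_letters` hold by `two_ge`; so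
  `u.flatMap (two N g' h') = v.flatMap (two N g' h')`, which is the claim.
-/

set_option autoImplicit false

namespace H47.SW

private lemma spr_succ {A B : Type} {N : ℕ} {g h : A → List B} {x : List A} (hs : Spr N g h x) :
    Spr (N + 1) g h x := by
  obtain ⟨h1, h2, h3, h4⟩ := hs
  refine ⟨fun w hw hv a => ?_, fun w hw hv a => ?_, ?_, ?_⟩
  · exact (h1 w hw (by omega) a).trans (Nat.mul_le_mul_right _ (by omega))
  · exact (h2 w hw (by omega) a).trans (Nat.mul_le_mul_right _ (by omega))
  · exact h3.trans (Nat.mul_le_mul_right _ (by omega))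
  · exact h4.trans (Nat.mul_le_mul_right _ (by omega))

private lemma red_congr {A B : Type} {g g' : A → List B} (h : {a | g a = []} = {a | g' a = []})
    (x : List A) : red g x = red g' x := by
  have h' : ∀ a, g a = [] ↔ g' a = [] := fun a => by
    have := Set.ext_iff.1 h a
    simpa using this
  unfold red
  congr 1
  funext a
  simp only [ne_eq, h' a]

private lemma pmap_inl {A B : Type} {N : ℕ} (g h : A → List B) :
    ∀ (bs : List (List A)) (H : ∀ b ∈ bs, b.length < 2 * N),
      (bs.pmap (fun b hb => (Sum.inl ⟨b, hb⟩ : WB A N ⊕ WB A N)) H).flatMap (two N g h)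
        = bs.flatten.flatMap g
  | [], _ => rfl
  | b :: bs, H => by
    rw [List.pmap_cons, List.flatMap_cons, List.flatten_cons, List.flatMap_append,
      pmap_inl g h bs]
    rfl

private lemma pmap_inr {A B : Type} {N : ℕ} (g h : A → List B) :
    ∀ (bs : List (List A)) (H : ∀ b ∈ bs, b.length < 2 * N),
      (bs.pmap (fun b hb => (Sum.inr ⟨b, hb⟩ : WB A N ⊕ WB A N)) H).flatMap (two N g h)
        = bs.flatten.flatMap h
  | [], _ => rfl
  | b :: bs, H => by
    rw [List.pmap_cons, List.flatMap_cons, List.flatten_cons, List.flatMap_append,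
      pmap_inr g h bs]
    rfl

/-- Short words. -/
private abbrev Shw (A : Type) (M : ℕ) : Type := {w : List A // w.length ≤ M}

private abbrev Clt (A : Type) (M : ℕ) : Type := Set A × Set A × Set (Shw A (M ^ 2) × Shw A (M ^ 2))

private def clq {A B : Type} (M : ℕ) (p : (A → List B) × (A → List B)) : Clt A M :=
  ({a | p.1 a = []}, {a | p.2 a = []}, {q | q.1.val.flatMap p.1 = q.2.val.flatMap p.2})

theorem fin_list (A : Type) [Finite A] (N : ℕ) :
    ∃ K : ℕ, ∀ (B : Type) (S : Set ((A → List B) × (A → List B))),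
      ∃ T ⊆ S, T.Finite ∧ T.ncard ≤ K ∧
        ∀ x : List A, (∀ p ∈ T, x.flatMap p.1 = x.flatMap p.2 ∧ Spr N p.1 p.2 x) →
          ∀ p ∈ S, x.flatMap p.1 = x.flatMap p.2 := by
  classical
  obtain ⟨M, hM⟩ : ∃ M, M = N + 1 := ⟨_, rfl⟩
  have hM0 : 0 < M := by omega
  haveI : Finite (WB A M) := (List.finite_length_lt A (2 * M)).to_subtype
  haveI : Finite (Shw A (M ^ 2)) := (List.finite_length_le A (M ^ 2)).to_subtype
  haveI : Finite (Clt A M) := inferInstance
  haveI := Fintype.ofFinite (Clt A M)
  obtain ⟨K0, hK0⟩ := ker_letters (WB A M ⊕ WB A M) (4 * M ^ 5)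
  refine ⟨Fintype.card (Clt A M) * K0, fun B S => ?_⟩
  let φ : (A → List B) × (A → List B) → ℕ × (WB A M ⊕ WB A M → List B) :=
    fun p => (scale M p.1 p.2, two M p.1 p.2)
  have step : ∀ c : Clt A M, ∃ T ⊆ {p ∈ S | clq M p = c}, T.Finite ∧ T.ncard ≤ K0 ∧
      ({p ∈ S | clq M p = c}.Nonempty → T.Nonempty) ∧
      ∀ u v : List (WB A M ⊕ WB A M), (∀ p ∈ T, u.flatMap (φ p).2 = v.flatMap (φ p).2 ∧
          ∀ x, x ∈ u ∨ x ∈ v → (φ p).1 ≤ ((φ p).2 x).length) →
        ∀ p ∈ {p ∈ S | clq M p = c}, u.flatMap (φ p).2 = v.flatMap (φ p).2 := by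
    intro c
    obtain ⟨T0, hT0, hfin, hcard, hne, hk⟩ := hK0 B (φ '' {p ∈ S | clq M p = c}) (by
      rintro _ ⟨p, -, rfl⟩
      exact ⟨scale_pos M p.1 p.2, fun x => two_le hM0 p.1 p.2 x⟩)
    have hsurj : Set.SurjOn φ {p ∈ S | clq M p = c} T0 := hT0
    obtain ⟨T, hTs, hbij⟩ := hsurj.exists_bijOn_subset
    have him : φ '' T = T0 := hbij.image_eq
    refine ⟨T, hTs, ?_, ?_, ?_, ?_⟩
    · exact Set.Finite.of_finite_image (by rw [him]; exact hfin) hbij.injOn
    · rw [← hbij.injOn.ncard_image, him]
      exact hcard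
    · intro h
      have := hne (h.image φ)
      rw [← him] at this
      exact this.of_image
    · intro u v huv p hp
      refine hk u v ?_ (φ p) ⟨p, hp, rfl⟩
      rintro q hq
      rw [← him] at hq
      obtain ⟨p', hp', rfl⟩ := hq
      exact huv p' hp'
  choose T hTs hTf hTc hTn hTk using step
  refine ⟨⋃ c, T c, Set.iUnion_subset fun c => (hTs c).trans fun p hp => hp.1,
    Set.finite_iUnion hTf, ?_, ?_⟩
  · calc (⋃ c, T c).ncard ≤ ∑ c, (T c).ncard := Set.ncard_iUnion_le_of_fintype _
      _ ≤ ∑ _c : Clt A M, K0 := Finset.sum_le_sum fun c _ => hTc c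
      _ = Fintype.card (Clt A M) * K0 := by simp
  · intro x hx p' hp'
    obtain ⟨p, hp⟩ := hTn (clq M p') ⟨p', hp', rfl⟩
    have hcp : clq M p = clq M p' := (hTs _ hp).2
    have hmem : ∀ q ∈ T (clq M p'), x.flatMap q.1 = x.flatMap q.2 ∧ Spr M q.1 q.2 x := by
      intro q hq
      have := hx q (Set.mem_iUnion.2 ⟨_, hq⟩)
      exact ⟨this.1, by rw [hM]; exact spr_succ this.2⟩
    have hr1 : ∀ q : (A → List B) × (A → List B), clq M q = clq M p' → red q.1 x = red p'.1 x := by
      intro q hq
      exact red_congr (congrArg Prod.fst hq) x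
    have hr2 : ∀ q : (A → List B) × (A → List B), clq M q = clq M p' → red q.2 x = red p'.2 x := by
      intro q hq
      exact red_congr (congrArg (fun c => c.2.1) hq) x
    obtain ⟨y, hy⟩ : ∃ y, y = red p'.1 x := ⟨_, rfl⟩
    obtain ⟨z, hz⟩ : ∃ z, z = red p'.2 x := ⟨_, rfl⟩
    have hyg : ∀ q : (A → List B) × (A → List B), clq M q = clq M p' → y.flatMap q.1 = x.flatMap q.1 := by
      intro q hq
      rw [hy, ← hr1 q hq, red_flatMap]
    have hzh : ∀ q : (A → List B) × (A → List B), clq M q = clq M p' → z.flatMap q.2 = x.flatMap q.2 := by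
      intro q hq
      rw [hz, ← hr2 q hq, red_flatMap]
    have hsp := (hmem p hp).2
    have hv1 : y.length ≤ M * z.length := by
      have h3 := hsp.2.2.1
      rw [hy, hz, ← hr1 p hcp, ← hr2 p hcp]
      exact h3
    have hv2 : z.length ≤ M * y.length := by
      have h3 := hsp.2.2.2
      rw [hy, hz, ← hr1 p hcp, ← hr2 p hcp]
      exact h3
    by_cases hshort : y.length < M ∨ z.length < M
    · have hyl : y.length ≤ M ^ 2 := by
        rcases hshort with h | h
        · nlinarith
        · nlinarith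
      have hzl : z.length ≤ M ^ 2 := by
        rcases hshort with h | h
        · nlinarith
        · nlinarith
      have h1 : y.flatMap p.1 = z.flatMap p.2 := by
        rw [hyg p hcp, hzh p hcp, (hmem p hp).1]
      have h2 : ((⟨y, hyl⟩, ⟨z, hzl⟩) : Shw A (M ^ 2) × Shw A (M ^ 2)) ∈ (clq M p).2.2 := h1
      rw [hcp] at h2
      have h3 : y.flatMap p'.1 = z.flatMap p'.2 := h2
      rw [← hyg p' rfl, ← hzh p' rfl, h3]
    · push Not at hshort
      obtain ⟨bs, hbs, hbl⟩ := blocks hM0 y hshort.1
      obtain ⟨cs, hcs, hcl⟩ := blocks hM0 z hshort.2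
      have Hb : ∀ b ∈ bs, b.length < 2 * M := fun b hb => (hbl b hb).2
      have Hc : ∀ b ∈ cs, b.length < 2 * M := fun b hb => (hcl b hb).2
      have key := hTk (clq M p')
        (bs.pmap (fun b hb => (Sum.inl ⟨b, hb⟩ : WB A M ⊕ WB A M)) Hb)
        (cs.pmap (fun b hb => (Sum.inr ⟨b, hb⟩ : WB A M ⊕ WB A M)) Hc) ?_ p' ⟨hp', rfl⟩
      · have e1 : bs.flatten.flatMap p'.1 = cs.flatten.flatMap p'.2 := by
          rw [← pmap_inl p'.1 p'.2 bs Hb, ← pmap_inr p'.1 p'.2 cs Hc]
          exact key
        rw [hbs, hcs] at e1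
        rw [← hyg p' rfl, ← hzh p' rfl, e1]
      · intro q hq
        have hcq : clq M q = clq M p' := (hTs _ hq).2
        refine ⟨?_, ?_⟩
        · show List.flatMap (two M q.1 q.2) _ = List.flatMap (two M q.1 q.2) _
          rw [pmap_inl, pmap_inr, hbs, hcs, hyg q hcq, hzh q hcq, (hmem q hq).1]
        · have hge := two_ge hM0 (hmem q hq).1 (hmem q hq).2 (bs := bs) (cs := cs)
            (by rw [hbs, hy, hr1 q hcq]) (by rw [hcs, hz, hr2 q hcq]) hbl hcl
            (by rw [hr1 q hcq, ← hy]; exact hshort.1) (by rw [hr2 q hcq, ← hz]; exact hshort.2)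
          intro γ hγ
          rcases hγ with hγ | hγ
          · rw [List.mem_pmap] at hγ
            obtain ⟨b, hb, rfl⟩ := hγ
            exact hge.1 b hb
          · rw [List.mem_pmap] at hγ
            obtain ⟨b, hb, rfl⟩ := hγ
            exact hge.2 b hb

end H47.SW
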