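import Mathlib

/-!
Definitions for the final theorem, for morphisms given by their letter images.
-/

set_option autoImplicit false

namespace H47.SW

open Classical in
/-- The number of letters of `w` which are not erased by `g`. -/
noncomputable def vis {A B : Type} (g : A → List B) (w : List A) : ℕ :=
  (w.filter (fun a => decide (g a ≠ []))).length

/-- `x` is `N`-spread for `(g, h)`. -/
def Spr {A B : Type} (N : ℕ) (g h : A → List B) (x : List A) : Prop :=
  (∀ w, w <:+: x → N ≤ vis g w → ∀ a, (g a).length ≤ N * (w.flatMap g).length) ∧
  (∀ w, w <:+: x → N ≤ vis h w → ∀ a, (h a).length ≤ N * (w.flatMap h).length) ∧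
  vis g x ≤ N * vis h x ∧ vis h x ≤ N * vis g x

/-- Words of length less than `2 N`. -/
abbrev WB (A : Type) (N : ℕ) : Type := {w : List A // w.length < 2 * N}

/-- The morphism on two copies of the alphabet of blocks. -/
def two {A B : Type} (N : ℕ) (g h : A → List B) : WB A N ⊕ WB A N → List B
  | Sum.inl w => w.val.flatMap g
  | Sum.inr w => w.val.flatMap h

end H47.SW
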