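import Pool.Agent.H47.SW.Res

/-!
MODULE Gap (about 120 lines).  Arbitrary `S`, words with bounded gaps.

Use `main` with `N' = 2 N + 2`.  It remains to see that `Spread N' p x` holds if `p.1 x = p.2 x` and every
factor of length `N` of `x` contains every letter.
* A factor `w` with at least `N'` visible letters has length at least `N`, hence contains every
  letter `a`, and `|g(a)| <= |g(w)|`.
* `visible g x <= N' * visible h x`: if `visible h x = 0` then `h(x) = 1 = g(x)`, so `visible g x = 0`.
  Otherwise let `b` be a letter not erased by `h`; `x` contains `⌊|x| / N⌋` disjoint factors of length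
  `N`, each of them contains `b`, so `visible h x >= ⌊|x| / N⌋` and `visible h x >= 1`, and
  `visible g x <= |x| <= N ⌊|x| / N⌋ + N <= 2 N visible h x` (if `N = 0` then the hypothesis on the
  empty factor shows that there are no letters, `x = 1`).
-/

set_option autoImplicit false

namespace H47.SW

open FreeMonoid

variable {A B : Type}

private theorem gap_count {A : Type} (P : A → Bool) (b : A) (hb : P b = true) (N : ℕ) :
    ∀ (k : ℕ) (l : List A), (∀ s w t, l = s ++ (w ++ t) → w.length = N → b ∈ w) →
      k * N ≤ l.length → k ≤ (l.filter P).length := by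
  intro k
  induction k with
  | zero => intro l _ _; exact Nat.zero_le _
  | succ k ih =>
    intro l hl hk
    have hk' : k * N + N ≤ l.length := by rw [Nat.succ_mul] at hk; exact hk
    have e : l = l.take N ++ l.drop N := (List.take_append_drop N l).symm
    have h1 : b ∈ l.take N := by
      refine hl [] (l.take N) (l.drop N) (by simp) ?_
      rw [List.length_take]
      omega
    have h2 : 0 < ((l.take N).filter P).length :=
      List.length_pos_of_mem (List.mem_filter.2 ⟨h1, hb⟩)
    have h3 : k ≤ ((l.drop N).filter P).length := by
      refine ih _ ?_ ?_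
      · intro s w t hs hw
        refine hl (l.take N ++ s) w t ?_ hw
        rw [List.append_assoc, ← hs]
        exact e
      · rw [List.length_drop]
        omega
    have h4 : (l.filter P).length = ((l.take N).filter P).length + ((l.drop N).filter P).length := by
      rw [← List.length_append, ← List.filter_append, List.take_append_drop]
    omega

private theorem gap_len (g : FreeMonoid A →* FreeMonoid B) {w : FreeMonoid A} {a : A}
    (h : a ∈ w.toList) : (g (of a)).length ≤ (g w).length := by
  obtain ⟨s, t, hst⟩ := List.append_of_mem h
  have e : w = ofList s * (of a * ofList t) := by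
    apply FreeMonoid.toList.injective
    rw [hst]
    rfl
  rw [e, map_mul, map_mul, length_mul, length_mul]
  omega

private theorem gap_vis_le (g : FreeMonoid A →* FreeMonoid B) (w : FreeMonoid A) :
    visible g w ≤ w.length := List.length_filter_le _ _

private theorem gap_vis_zero (g : FreeMonoid A →* FreeMonoid B) (w : FreeMonoid A)
    (h : g w = 1) : visible g w = 0 := by
  unfold visible
  rw [List.length_eq_zero_iff, List.filter_eq_nil_iff]
  intro a ha
  have h1 := gap_len g ha
  have h2 : (g w).length = 0 := by rw [h]; rfl
  have h3 : (g (of a)).length = 0 := by omega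
  have h4 : g (of a) = 1 := length_eq_zero.1 h3
  simp [h4]

private theorem gap_one_of_vis (g : FreeMonoid A →* FreeMonoid B) (w : FreeMonoid A)
    (h : ∀ a ∈ w.toList, g (of a) = 1) : g w = 1 := by
  induction w using FreeMonoid.inductionOn' with
  | one => exact map_one g
  | of_mul a w ih =>
    have h1 : g (of a) = 1 := h a (by simp)
    have h2 : g w = 1 := ih fun b hb => h b (by
      rw [toList_mul]
      exact List.mem_append_right _ hb)
    rw [map_mul, h1, h2, one_mul]

private theorem gap_sub {N : ℕ} {x : FreeMonoid A}
    (hx : ∀ y w z, x = y * w * z → w.length = N → ∀ a, a ∈ w.toList)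
    (g : FreeMonoid A →* FreeMonoid B) (y w z : FreeMonoid A) (e : x = y * w * z)
    (h : 2 * N + 2 ≤ visible g w) (a : A) : (g (of a)).length ≤ (2 * N + 2) * (g w).length := by
  have h1 := gap_vis_le g w
  have h2 : (w.toList.take N).length = N := by
    rw [List.length_take]
    have : w.toList.length = w.length := rfl
    omega
  have e2 : w = ofList (w.toList.take N) * ofList (w.toList.drop N) := by
    apply FreeMonoid.toList.injective
    exact (List.take_append_drop N w.toList).symm
  have h3 : a ∈ w.toList.take N := by
    refine hx y (ofList (w.toList.take N)) (ofList (w.toList.drop N) * z) ?_ h2 a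
    rw [e]
    conv_lhs => rw [e2]
    simp only [mul_assoc]
  have h4 : a ∈ w.toList := List.mem_of_mem_take h3
  calc (g (of a)).length ≤ (g w).length := gap_len g h4
    _ = 1 * (g w).length := (one_mul _).symm
    _ ≤ (2 * N + 2) * (g w).length := Nat.mul_le_mul_right _ (by omega)

private theorem gap_cmp {N : ℕ} {x : FreeMonoid A}
    (hx : ∀ y w z, x = y * w * z → w.length = N → ∀ a, a ∈ w.toList)
    (g h : FreeMonoid A →* FreeMonoid B) (e : g x = h x) :
    visible g x ≤ (2 * N + 2) * visible h x := by
  classical
  by_cases h0 : ∀ a ∈ x.toList, h (of a) = 1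
  · have h1 := gap_one_of_vis h x h0
    rw [gap_vis_zero g x (e.trans h1)]
    exact Nat.zero_le _
  · push Not at h0
    obtain ⟨b, hb, hb1⟩ := h0
    have hN : 0 < N := by
      rcases Nat.eq_zero_or_pos N with h | h
      · exfalso
        have := hx 1 1 x (by simp) (by rw [h]; rfl) b
        simp at this
      · exact h
    have hlist : ∀ s w t, x.toList = s ++ (w ++ t) → w.length = N → b ∈ w := by
      intro s w t hs hw
      refine hx (ofList s) (ofList w) (ofList t) ?_ hw b
      apply FreeMonoid.toList.injective
      rw [hs, ← List.append_assoc]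
      rfl
    have hk := gap_count (fun a => decide (h (of a) ≠ 1)) b (by simpa using hb1) N
      (x.toList.length / N) x.toList hlist (Nat.div_mul_le_self _ _)
    have hpos : 0 < (x.toList.filter (fun a => decide (h (of a) ≠ 1))).length :=
      List.length_pos_of_mem (List.mem_filter.2 ⟨hb, by simpa using hb1⟩)
    have hv : visible h x = (x.toList.filter (fun a => decide (h (of a) ≠ 1))).length := by
      unfold visible
      congr 1
    rw [← hv] at hk hpos
    have h1 : visible g x ≤ x.toList.length := gap_vis_le g x
    have h2 : x.toList.length < N * (x.toList.length / N + 1) := Nat.lt_mul_div_succ _ hN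
    have h3 : N * (x.toList.length / N + 1) ≤ N * (visible h x + visible h x) :=
      Nat.mul_le_mul_left _ (by omega)
    calc visible g x ≤ N * (visible h x + visible h x) := by omega
      _ = (2 * N) * visible h x := by ring
      _ ≤ (2 * N + 2) * visible h x := Nat.mul_le_mul_right _ (by omega)

/-- Special case: arbitrary `S`, words all of whose factors of length `N` contain every letter. -/
theorem gaps (A : Type) [Finite A] (N : ℕ) :
    ∃ K : ℕ, ∀ (B : Type)
      (S : Set ((FreeMonoid A →* FreeMonoid B) × (FreeMonoid A →* FreeMonoid B))),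
      ∃ T ⊆ S, T.Finite ∧ T.ncard ≤ K ∧
        ∀ x : FreeMonoid A, (∀ y w z, x = y * w * z → w.length = N → ∀ a, a ∈ w.toList) →
          (∀ p ∈ T, p.1 x = p.2 x) → ∀ p ∈ S, p.1 x = p.2 x := by
  obtain ⟨K, hK⟩ := main A (2 * N + 2)
  refine ⟨K, fun B S => ?_⟩
  obtain ⟨T, h1, h2, h3, h4⟩ := hK B S
  refine ⟨T, h1, h2, h3, fun x hx hT => h4 x fun p hp => ⟨hT p hp, ?_⟩⟩
  exact ⟨gap_sub hx p.1, gap_sub hx p.2, gap_cmp hx p.1 p.2 (hT p hp),
    gap_cmp hx p.2 p.1 (hT p hp).symm⟩

end H47.SW
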