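import Pool.Agent.H47.SW.SegF

/-!
MODULE SegT (about 100 lines).  Segments with a small period.

If both lists have length `<= 3 C + 2`: `hs`.  Otherwise both have length `>= 4` (`count4`, used for
`(l, l')` or `(l', l)`).  Let `l = p1 :: p2 :: r`, `l' = q1 :: q2 :: r'`, `r, r'` nonempty.  The words
`[p1, p2].flatMap g` and `[q1, q2].flatMap g` are prefixes of the same word, so one is a prefix of
the other (`List.prefix_or_prefix_of_prefix`); by `hcmp` the same holds for `g'`.
Hence `l.flatMap g'` and `l'.flatMap g'` agree on the first `n` letters, `n` = length of the shorter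
one of the two `g'`-words `>= m'` (`p2`, `q2` are interior).  Both words have periods `p`, `q` with
`8 p, 8 q <= m'`, so `p + q <= n`, and they have the same length: `eq_of_per`.
-/

set_option autoImplicit false

namespace H47.SW

variable {P B : Type}

private theorem segT_common {m' : ℕ} {w w' x : List B} (hm' : 0 < m') (h1 : PerW m' w)
    (h2 : PerW m' w') (hx : m' ≤ x.length) (a : x <+: w) (b : x <+: w')
    (hlen : w.length = w'.length) : w = w' := by
  obtain ⟨p, hp, hp8, hpp⟩ := h1
  obtain ⟨q, hq, hq8, hqq⟩ := h2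
  refine eq_of_per hp hq hpp hqq (n := x.length) (by omega) ?_ hlen
  rw [← List.prefix_iff_eq_take.1 a, ← List.prefix_iff_eq_take.1 b]

private theorem segT_split {l : List P} (h : 4 ≤ l.length) :
    ∃ p1 p2 r, l = p1 :: p2 :: r ∧ r ≠ [] := by
  match l, h with
  | p1 :: p2 :: p3 :: r, _ => exact ⟨p1, p2, p3 :: r, rfl, by simp⟩

private theorem segT_pre {g : P → List B} {p1 p2 : P} {r : List P} :
    [p1, p2].flatMap g <+: (p1 :: p2 :: r).flatMap g := by
  refine ⟨r.flatMap g, ?_⟩
  simp

private theorem segT_len {m : ℕ} {g : P → List B} {p1 p2 : P} {r : List P}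
    (h : IntFull m g (p1 :: p2 :: r)) (hr : r ≠ []) : m ≤ ([p1, p2].flatMap g).length := by
  have := h [p1] p2 r rfl (by simp) hr
  simp only [List.flatMap_cons, List.flatMap_nil, List.append_nil, List.length_append]
  omega

theorem segT {C m m' : ℕ} {g g' : P → List B} {l l' : List P} (hm : 0 < m) (hm' : 0 < m')
    (hg : ∀ p, (g p).length ≤ C * m) (hl : IntFull m g l) (hl' : IntFull m g l')
    (il : IntFull m' g' l) (il' : IntFull m' g' l')
    (hs : ∀ l l' : List P, l.length ≤ 3 * C + 2 → l'.length ≤ 3 * C + 2 →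
      l.flatMap g = l'.flatMap g → l.flatMap g' = l'.flatMap g')
    (hcmp : ∀ l l' : List P, l.length = 2 → l'.length = 2 →
      l.flatMap g <+: l'.flatMap g → l.flatMap g' <+: l'.flatMap g')
    (h : l.flatMap g = l'.flatMap g)
    (h1 : PerW m' (l.flatMap g')) (h2 : PerW m' (l'.flatMap g'))
    (hlen : (l.flatMap g').length = (l'.flatMap g').length) :
    l.flatMap g' = l'.flatMap g' := by
  by_cases hc : l.length ≤ 3 * C + 2 ∧ l'.length ≤ 3 * C + 2
  · exact hs l l' hc.1 hc.2 h
  · have h4 : 4 ≤ l.length ∧ 4 ≤ l'.length := by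
      by_cases hc1 : 3 * C + 2 < l.length
      · exact count4 hm hg hl h hc1
      · have := count4 hm hg hl' h.symm (by omega)
        exact ⟨this.2, this.1⟩
    obtain ⟨p1, p2, r, rfl, hr⟩ := segT_split h4.1
    obtain ⟨q1, q2, r', rfl, hr'⟩ := segT_split h4.2
    have a1 : [p1, p2].flatMap g <+: (p1 :: p2 :: r).flatMap g := segT_pre
    have a2 : [q1, q2].flatMap g <+: (p1 :: p2 :: r).flatMap g := by
      rw [h]; exact segT_pre
    rcases List.prefix_or_prefix_of_prefix a1 a2 with a | a
    · exact segT_common hm' h1 h2 (segT_len il hr) segT_pre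
        ((hcmp _ _ rfl rfl a).trans segT_pre) hlen
    · exact segT_common hm' h1 h2 (segT_len il' hr') ((hcmp _ _ rfl rfl a).trans segT_pre)
        segT_pre hlen

end H47.SW
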