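import Pool.Agent.H47.SW.Per

/-!
MODULE Split (about 50 lines).  Cutting a list of pieces at the first change of label.
Induction on `l`.
-/

set_option autoImplicit false

namespace H47.SW

variable {B P : Type}

private theorem split_all (lb : P → Bool) (p : P) (b : Bool) (u : List (B × Bool))
    (hu : ∀ x ∈ u, x.2 = lb p) (hb : lb p = b) : ∀ x ∈ u, (x.2 == b) = true := by
  intro x hx
  rw [hu x hx, hb]
  simp

private theorem split_none (lb : P → Bool) (p : P) (b : Bool) (u v : List (B × Bool))
    (hne : u ≠ []) (hu : ∀ x ∈ u, x.2 = lb p) (hb : lb p ≠ b) :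
    (u ++ v).takeWhile (fun x => x.2 == b) = [] ∧
    (u ++ v).dropWhile (fun x => x.2 == b) = u ++ v := by
  cases u with
  | nil => exact absurd rfl hne
  | cons x u =>
    have h : (x.2 == b) = false := by
      rw [hu x List.mem_cons_self]
      simpa using hb
    simp [h]

theorem split_take (g : P → List (B × Bool)) (lb : P → Bool) (b : Bool) (l : List P)
    (hne : ∀ p ∈ l, g p ≠ []) (hc : ∀ p ∈ l, ∀ x ∈ g p, x.2 = lb p) :
    (l.flatMap g).takeWhile (fun x => x.2 == b) = (l.takeWhile (fun p => lb p == b)).flatMap g := by
  induction l with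
  | nil => simp
  | cons p l ih =>
    have ih' := ih (fun q hq => hne q (List.mem_cons_of_mem _ hq))
      (fun q hq => hc q (List.mem_cons_of_mem _ hq))
    rw [List.flatMap_cons]
    by_cases hb : lb p = b
    · have h1 : (lb p == b) = true := by simpa using hb
      rw [List.takeWhile_cons, if_pos h1, List.flatMap_cons,
        List.takeWhile_append_of_pos (split_all lb p b (g p) (hc p List.mem_cons_self) hb), ih']
    · have h1 : (lb p == b) = false := by simpa using hb
      rw [List.takeWhile_cons, h1, (split_none lb p b (g p) (l.flatMap g)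
        (hne p List.mem_cons_self) (hc p List.mem_cons_self) hb).1]
      simp

theorem split_drop (g : P → List (B × Bool)) (lb : P → Bool) (b : Bool) (l : List P)
    (hne : ∀ p ∈ l, g p ≠ []) (hc : ∀ p ∈ l, ∀ x ∈ g p, x.2 = lb p) :
    (l.flatMap g).dropWhile (fun x => x.2 == b) = (l.dropWhile (fun p => lb p == b)).flatMap g := by
  induction l with
  | nil => simp
  | cons p l ih =>
    have ih' := ih (fun q hq => hne q (List.mem_cons_of_mem _ hq))
      (fun q hq => hc q (List.mem_cons_of_mem _ hq))
    rw [List.flatMap_cons]
    by_cases hb : lb p = b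
    · have h1 : (lb p == b) = true := by simpa using hb
      rw [List.dropWhile_cons, if_pos h1,
        List.dropWhile_append_of_pos (split_all lb p b (g p) (hc p List.mem_cons_self) hb), ih']
    · have h1 : (lb p == b) = false := by simpa using hb
      rw [List.dropWhile_cons, h1, (split_none lb p b (g p) (l.flatMap g)
        (hne p List.mem_cons_self) (hc p List.mem_cons_self) hb).2]
      simp

end H47.SW
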