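import Pool.Agent.H47.SW.IntF
import Pool.Agent.H47.SW.Split
import Pool.Agent.H47.SW.SegT

/-!
MODULE Ind.  The kernel of a member of a class from the kernels of others.

Let `i` range over the index set `T` (nonempty) and `j` be one more index; all are good and
`SC C (m i) (f i) (m j) (f j)` for `i ∈ T`.  Let `n = nr (m j) (f j)`; by `SC.nr_eq` all `nr (m i) (f i)`
are equal to it (`funext`).

CLAIM (induction on `l.length`).  Let `l` be a suffix of `PL n u` and `l'` a suffix of
`PL n v` with `l.flatMap (wd (m i) (f i)) = l'.flatMap (wd (m i) (f i))` for all `i ∈ T`.  Then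
`l.flatMap (wf (m j) (f j)) = l'.flatMap (wf (m j) (f j))`.
-/

set_option autoImplicit false

namespace H47.SW

variable {Γ B ι : Type}

/-- The decomposition of the labelling given by a prefix of a suffix of the list of pieces. -/
theorem lab_decomp {C m : ℕ} {f : Γ → List B} (hf : Good C m f) {u : List Γ}
    {l1 l2 : List (Pc Γ C)} (h : l1 ++ l2 <:+ PL (C := C) (nr m f) u) :
    lab m ((l1 ++ l2).flatMap (wf m f)) = l1.flatMap (wd m f) ++ l2.flatMap (wd m f) := by
  obtain ⟨t, ht⟩ := h
  have h1 := pl_wd (C := C) hf u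
  rw [← ht, List.flatMap_append] at h1
  have h2 := lab_suffix h1.symm
  rw [map_fst_flatMap] at h2
  rw [← h2, List.flatMap_append]

/-- The two words of a constant run are equal for `j`. -/
theorem ind_seg {C : ℕ} {m m' : ℕ} {f f' : Γ → List B}
    (hG : Good C m f) (hj : Good C m' f') (hS : SC C m f m' f')
    {u v : List Γ} {l1 l2 l1' l2' : List (Pc Γ C)} {b : Bool}
    (h : l1 ++ l2 <:+ PL (C := C) (nr m' f') u) (h' : l1' ++ l2' <:+ PL (C := C) (nr m' f') v)
    (hb : ∀ p ∈ l1, lbl m' f' p = b) (hb' : ∀ p ∈ l1', lbl m' f' p = b)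
    (ne : l1 ≠ []) (ne' : l1' ≠ [])
    (heq : l1.flatMap (wf m f) = l1'.flatMap (wf m f))
    (hlen : (l1.flatMap (wf m' f')).length = (l1'.flatMap (wf m' f')).length) :
    l1.flatMap (wf m' f') = l1'.flatMap (wf m' f') := by
  have hn : nr m f = nr m' f' := funext fun X => hS.nr_eq X
  have hb1 : ∀ p ∈ l1, lbl m f p = b := fun p hp => (hS.lbl_eq p).trans (hb p hp)
  have hb1' : ∀ p ∈ l1', lbl m f p = b := fun p hp => (hS.lbl_eq p).trans (hb' p hp)
  have inf1 : l1 <:+: PL (C := C) (nr m' f') u :=
    (List.prefix_append l1 l2).isInfix.trans h.isInfix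
  have inf1' : l1' <:+: PL (C := C) (nr m' f') v :=
    (List.prefix_append l1' l2').isInfix.trans h'.isInfix
  have I1 : IntFull m (wf m f) l1 := int_full hG (by rw [hn]; exact inf1) hb1
  have I1' : IntFull m (wf m f) l1' := int_full hG (by rw [hn]; exact inf1') hb1'
  cases b with
  | false =>
    have hA : Aper m (l1.flatMap (wf m f)) := by
      have hd := lab_decomp hG (u := u) (l1 := l1) (l2 := l2) (by rw [hn]; exact h)
      have := lab_false hG.pos hd (by
        intro x hx
        obtain ⟨p, hp, hxp⟩ := List.mem_flatMap.1 hx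
        rw [wd_const f p x hxp]
        exact hb1 p hp)
      rwa [map_fst_flatMap] at this
    exact segF hG.pos (fun p => wf_le hG p) I1 I1' hS.short hS.rig heq hA
  | true =>
    have J1 : IntFull m' (wf m' f') l1 := int_full hj inf1 hb
    have J1' : IntFull m' (wf m' f') l1' := int_full hj inf1' hb'
    have per : ∀ {w : List Γ} {k1 k2 : List (Pc Γ C)}, k1 ++ k2 <:+ PL (C := C) (nr m' f') w →
        (∀ p ∈ k1, lbl m' f' p = true) → k1 ≠ [] → PerW m' (k1.flatMap (wf m' f')) := by
      intro w k1 k2 hk hkb hk0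
      have hd := lab_decomp hj hk
      have hne : k1.flatMap (wd m' f') ≠ [] := by
        obtain ⟨p, k, rfl⟩ := List.exists_cons_of_ne_nil hk0
        have hp : wd m' f' p ≠ [] := by
          apply wd_ne_nil (u := w)
          apply hk.isInfix.subset
          simp
        intro h0
        rw [List.flatMap_cons] at h0
        exact hp (List.append_eq_nil_iff.1 h0).1
      have := lab_true hj.pos hd hne (by
        intro x hx
        obtain ⟨p, hp, hxp⟩ := List.mem_flatMap.1 hx
        rw [wd_const f' p x hxp]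
        exact hkb p hp)
      rwa [map_fst_flatMap] at this
    exact segT hG.pos hj.pos (fun p => wf_le hG p) I1 I1' J1 J1' hS.short hS.cmp heq
      (per h hb ne) (per h' hb' ne') hlen

theorem ind_aux {C : ℕ} {m : ι → ℕ} {f : ι → Γ → List B} {T : Set ι} {j : ι} (hT : T.Nonempty)
    (hG : ∀ i ∈ T, Good C (m i) (f i)) (hj : Good C (m j) (f j))
    (hS : ∀ i ∈ T, SC C (m i) (f i) (m j) (f j))
    (hL : ∀ l l' : List (Pc Γ C),
      (∀ i ∈ T, (l.flatMap (wf (m i) (f i))).length = (l'.flatMap (wf (m i) (f i))).length) →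
      (l.flatMap (wf (m j) (f j))).length = (l'.flatMap (wf (m j) (f j))).length)
    {u v : List Γ} (N : ℕ) : ∀ l l' : List (Pc Γ C), l.length ≤ N →
      l <:+ PL (nr (m j) (f j)) u → l' <:+ PL (nr (m j) (f j)) v →
      (∀ i ∈ T, l.flatMap (wd (m i) (f i)) = l'.flatMap (wd (m i) (f i))) →
      l.flatMap (wf (m j) (f j)) = l'.flatMap (wf (m j) (f j)) := by
  obtain ⟨i0, hi0⟩ := hT
  have hni : ∀ i ∈ T, nr (m i) (f i) = nr (m j) (f j) :=
    fun i hi => funext (fun X => (hS i hi).nr_eq X)
  have wne : ∀ i ∈ T, ∀ {w : List Γ} {l : List (Pc Γ C)}, l <:+ PL (nr (m j) (f j)) w →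
      ∀ p ∈ l, wd (m i) (f i) p ≠ [] := by
    intro i hi w l hl p hp
    apply wd_ne_nil (u := w)
    rw [hni i hi]
    exact hl.isInfix.subset hp
  have wco : ∀ i ∈ T, ∀ p : Pc Γ C, ∀ x ∈ wd (m i) (f i) p, x.2 = lbl (m j) (f j) p := by
    intro i hi p x hx
    rw [wd_const _ p x hx]
    exact (hS i hi).lbl_eq p
  induction N with
  | zero =>
    intro l l' hl hs hs' he
    have h0 : l = [] := List.length_eq_zero_iff.1 (by omega)
    subst h0
    have h1 : l' = [] := by
      by_contra hne
      obtain ⟨p, k, rfl⟩ := List.exists_cons_of_ne_nil hne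
      have := he i0 hi0
      rw [List.flatMap_nil, List.flatMap_cons] at this
      exact wne i0 hi0 hs' p (by simp) (List.append_eq_nil_iff.1 this.symm).1
    rw [h1]
  | succ N ih =>
    intro l l' hl hs hs' he
    rcases l with _ | ⟨p, k⟩
    · have h1 : l' = [] := by
        by_contra hne
        obtain ⟨p, k, rfl⟩ := List.exists_cons_of_ne_nil hne
        have := he i0 hi0
        rw [List.flatMap_nil, List.flatMap_cons] at this
        exact wne i0 hi0 hs' p (by simp) (List.append_eq_nil_iff.1 this.symm).1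
      rw [h1]
    rcases l' with _ | ⟨p', k'⟩
    · exfalso
      have := he i0 hi0
      rw [List.flatMap_nil, List.flatMap_cons] at this
      exact wne i0 hi0 hs p (by simp) (List.append_eq_nil_iff.1 this).1
    -- the common first label
    have hp0 : lbl (m j) (f j) p' = lbl (m j) (f j) p := by
      have h1 := he i0 hi0
      rw [List.flatMap_cons, List.flatMap_cons] at h1
      obtain ⟨x, w, hx⟩ := List.exists_cons_of_ne_nil (wne i0 hi0 hs p (by simp))
      obtain ⟨x', w', hx'⟩ := List.exists_cons_of_ne_nil (wne i0 hi0 hs' p' (by simp))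
      have e1 := wco i0 hi0 p x (by rw [hx]; simp)
      have e2 := wco i0 hi0 p' x' (by rw [hx']; simp)
      rw [hx, hx'] at h1
      simp only [List.cons_append, List.cons.injEq] at h1
      rw [← e1, ← e2, h1.1]
    set b := lbl (m j) (f j) p with hbdef
    let q : Pc Γ C → Bool := fun p => lbl (m j) (f j) p == b
    have hsp : (p :: k).takeWhile q ++ (p :: k).dropWhile q = p :: k :=
      List.takeWhile_append_dropWhile
    have hsp' : (p' :: k').takeWhile q ++ (p' :: k').dropWhile q = p' :: k' :=
      List.takeWhile_append_dropWhile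
    have hqp : q p = true := by simp [q, hbdef]
    have hqp' : q p' = true := by simp [q, hp0]
    have hne : (p :: k).takeWhile q ≠ [] := by rw [List.takeWhile_cons_of_pos hqp]; simp
    have hne' : (p' :: k').takeWhile q ≠ [] := by rw [List.takeWhile_cons_of_pos hqp']; simp
    have htake : ∀ i ∈ T, ((p :: k).takeWhile q).flatMap (wd (m i) (f i)) =
        ((p' :: k').takeWhile q).flatMap (wd (m i) (f i)) := by
      intro i hi
      rw [← split_take (wd (m i) (f i)) (lbl (m j) (f j)) b (p :: k) (wne i hi hs)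
        (fun p _ => wco i hi p), ← split_take (wd (m i) (f i)) (lbl (m j) (f j)) b (p' :: k')
        (wne i hi hs') (fun p _ => wco i hi p), he i hi]
    have hdrop : ∀ i ∈ T, ((p :: k).dropWhile q).flatMap (wd (m i) (f i)) =
        ((p' :: k').dropWhile q).flatMap (wd (m i) (f i)) := by
      intro i hi
      rw [← split_drop (wd (m i) (f i)) (lbl (m j) (f j)) b (p :: k) (wne i hi hs)
        (fun p _ => wco i hi p), ← split_drop (wd (m i) (f i)) (lbl (m j) (f j)) b (p' :: k')
        (wne i hi hs') (fun p _ => wco i hi p), he i hi]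
    have htakef : ∀ i ∈ T, ((p :: k).takeWhile q).flatMap (wf (m i) (f i)) =
        ((p' :: k').takeWhile q).flatMap (wf (m i) (f i)) := by
      intro i hi
      rw [← map_fst_flatMap, ← map_fst_flatMap, htake i hi]
    have hlab : ∀ (k : List (Pc Γ C)), ∀ x ∈ k.takeWhile q, lbl (m j) (f j) x = b := by
      intro k x hx
      have := List.mem_takeWhile_imp hx
      simpa [q] using this
    have e1 : ((p :: k).takeWhile q).flatMap (wf (m j) (f j)) =
        ((p' :: k').takeWhile q).flatMap (wf (m j) (f j)) := by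
      refine ind_seg (hG i0 hi0) hj (hS i0 hi0) (u := u) (v := v)
        (l2 := (p :: k).dropWhile q) (l2' := (p' :: k').dropWhile q) ?_ ?_ (hlab _) (hlab _)
        hne hne' (htakef i0 hi0) (hL _ _ fun i hi => by rw [htakef i hi])
      · rw [hsp]; exact hs
      · rw [hsp']; exact hs'
    have e2 : ((p :: k).dropWhile q).flatMap (wf (m j) (f j)) =
        ((p' :: k').dropWhile q).flatMap (wf (m j) (f j)) := by
      refine ih _ _ ?_ ((List.dropWhile_suffix q).trans hs) ((List.dropWhile_suffix q).trans hs')
        hdrop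
      have h1 : 0 < ((p :: k).takeWhile q).length := List.length_pos_iff.2 hne
      have h2 := congrArg List.length hsp
      rw [List.length_append] at h2
      omega
    calc (p :: k).flatMap (wf (m j) (f j))
        = ((p :: k).takeWhile q).flatMap (wf (m j) (f j)) ++
            ((p :: k).dropWhile q).flatMap (wf (m j) (f j)) := by
          rw [← List.flatMap_append, hsp]
      _ = ((p' :: k').takeWhile q).flatMap (wf (m j) (f j)) ++
            ((p' :: k').dropWhile q).flatMap (wf (m j) (f j)) := by rw [e1, e2]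
      _ = (p' :: k').flatMap (wf (m j) (f j)) := by
          rw [← List.flatMap_append, hsp']

theorem ind {C : ℕ} {m : ι → ℕ} {f : ι → Γ → List B} {T : Set ι} {j : ι} (hT : T.Nonempty)
    (hG : ∀ i ∈ T, Good C (m i) (f i)) (hj : Good C (m j) (f j))
    (hS : ∀ i ∈ T, SC C (m i) (f i) (m j) (f j))
    (hL : ∀ l l' : List (Pc Γ C),
      (∀ i ∈ T, (l.flatMap (wf (m i) (f i))).length = (l'.flatMap (wf (m i) (f i))).length) →
      (l.flatMap (wf (m j) (f j))).length = (l'.flatMap (wf (m j) (f j))).length)
    {u v : List Γ} (huv : ∀ i ∈ T, u.flatMap (f i) = v.flatMap (f i)) :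
    u.flatMap (f j) = v.flatMap (f j) := by
  have key := ind_aux hT hG hj hS hL (u := u) (v := v) _ (PL (nr (m j) (f j)) u)
    (PL (nr (m j) (f j)) v) le_rfl (List.suffix_refl _) (List.suffix_refl _) ?_
  · rw [← map_fst_flatMap, ← map_fst_flatMap, pl_wd hj, pl_wd hj, lab_map_fst,
      lab_map_fst] at key
    exact key
  · intro i hi
    have hni : nr (m i) (f i) = nr (m j) (f j) := funext (fun X => (hS i hi).nr_eq X)
    rw [← hni, pl_wd (hG i hi), pl_wd (hG i hi), huv i hi]

end H47.SW
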