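import Pool.Agent.H47.SW.PcB

/-!
MODULE IntF (about 80 lines), see the header of `Ind.lean`.
-/

set_option autoImplicit false

namespace H47.SW

variable {Γ B : Type}

theorem map_fst_flatMap {C : ℕ} (m : ℕ) (f : Γ → List B) (l : List (Pc Γ C)) :
    (l.flatMap (wd m f)).map Prod.fst = l.flatMap (wf m f) := by
  rw [List.map_flatMap]; rfl

theorem int_full {C m : ℕ} {f : Γ → List B} (hf : Good C m f) {u : List Γ} {l : List (Pc Γ C)}
    {b : Bool} (hl : l <:+: PL (C := C) (nr m f) u) (hb : ∀ p ∈ l, lbl m f p = b) :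
    IntFull m (wf m f) l := by
  intro a p c hlac ha hc
  have hch : l.IsChain
      (fun p p' => lbl m f p = lbl m f p' → p.2.val + 1 = nr m f p.1 ∧ p'.2.val = 0) := by
    obtain ⟨s, t, e⟩ := hl
    have h0 := pl_chain (C := C) hf u
    rw [← e] at h0
    exact h0.left_of_append.right_of_append
  obtain ⟨y, c', rfl⟩ := List.exists_cons_of_ne_nil hc
  have hx : a.dropLast ++ [a.getLast ha] = a := List.dropLast_append_getLast ha
  set x := a.getLast ha with hxdef
  have hl2 : l = a.dropLast ++ (x :: p :: y :: c') := by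
    rw [hlac]; nth_rewrite 1 [← hx]; simp
  rw [hl2] at hch
  have h3 := hch.right_of_append
  rw [List.isChain_cons_cons, List.isChain_cons_cons] at h3
  obtain ⟨h1, h2, _⟩ := h3
  have bx : lbl m f x = b := hb x (by rw [hl2]; simp)
  have bp : lbl m f p = b := hb p (by rw [hl2]; simp)
  have bY : lbl m f y = b := hb y (by rw [hl2]; simp)
  have e1 := h1 (by rw [bx, bp])
  have e2 := h2 (by rw [bp, bY])
  refine wf_full hf p ?_ e1.2
  omega

end H47.SW
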