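import Mathlib

/-!
MODULE Span (about 100 lines, Mathlib only).  Finitely many indices span all length vectors.

In `P → ℚ` (finite dimensional of dimension `Nat.card P`) let `X = {L i : i ∈ s}`.  There is a
linearly independent `Y ⊆ X` with the same span (`exists_linearIndependent`), `Y` is finite with at
most `Nat.card P` elements; choose a preimage in `s` of every element of `Y`, and add one more element
of `s` if `s` is nonempty.  For lists `l`, `l'` the map `v ↦ (l.map v).sum - (l'.map v).sum` is linear
in `v : P → ℚ`, it vanishes on `Y`, hence on the span, hence on all `L i`.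
-/

set_option autoImplicit false

namespace H47.SW

theorem span_pick {ι P : Type} [Finite P] (s : Set ι) (L : ι → P → ℕ) :
    ∃ t ⊆ s, t.Finite ∧ t.ncard ≤ Nat.card P + 1 ∧ (s.Nonempty → t.Nonempty) ∧
      ∀ l l' : List P, (∀ i ∈ t, (l.map (L i)).sum = (l'.map (L i)).sum) →
        ∀ i ∈ s, (l.map (L i)).sum = (l'.map (L i)).sum := by
  classical
  have := Fintype.ofFinite P
  let v : ι → P → ℚ := fun i p => (L i p : ℚ)
  have hcast : ∀ (i : ι) (l : List P), (((l.map (L i)).sum : ℕ) : ℚ) = (l.map (v i)).sum := by
    intro i l
    induction l with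
    | nil => simp
    | cons p l ih =>
      rw [List.map_cons, List.sum_cons, List.map_cons, List.sum_cons, Nat.cast_add, ih]
  obtain ⟨Y, hYX, hspan, hli⟩ := exists_linearIndependent ℚ (v '' s)
  have hYfin : Y.Finite := hli.setFinite
  have hYcard : Y.ncard ≤ Nat.card P := by
    have := hYfin.fintype
    have h1 := hli.fintype_card_le_finrank
    rw [Module.finrank_fintype_fun_eq_card] at h1
    rw [Set.ncard_eq_toFinset_card', Set.toFinset_card, Nat.card_eq_fintype_card]
    exact h1
  have hsurj : Set.SurjOn v s Y := hYX
  obtain ⟨t0, ht0s, hbij⟩ := hsurj.exists_bijOn_subset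
  have ht0fin : t0.Finite := by
    refine Set.Finite.of_finite_image ?_ hbij.injOn
    rw [hbij.image_eq]
    exact hYfin
  have ht0card : t0.ncard ≤ Nat.card P := by
    rw [← hbij.injOn.ncard_image, hbij.image_eq]
    exact hYcard
  have key : ∀ l l' : List P, (∀ i ∈ t0, (l.map (L i)).sum = (l'.map (L i)).sum) →
      ∀ i ∈ s, (l.map (L i)).sum = (l'.map (L i)).sum := by
    intro l l' h i hi
    have hmem : v i ∈ Submodule.span ℚ Y := by
      rw [hspan]
      exact Submodule.subset_span ⟨i, hi, rfl⟩
    have hw : (l.map (v i)).sum = (l'.map (v i)).sum := by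
      refine Submodule.span_induction
        (p := fun w _ => ((l.map w).sum = (l'.map w).sum)) ?_ ?_ ?_ ?_ hmem
      · intro w hw
        obtain ⟨j, hj, rfl⟩ := hbij.surjOn hw
        rw [← hcast, ← hcast, h j hj]
      · have e : ∀ l : List P, (l.map (0 : P → ℚ)).sum = 0 := by
          intro l
          induction l with
          | nil => simp
          | cons p l ih =>
            rw [List.map_cons, List.sum_cons, ih, Pi.zero_apply, add_zero]
        rw [e, e]
      · intro w w' _ _ h1 h2
        have e : ∀ l : List P, (l.map (w + w')).sum = (l.map w).sum + (l.map w').sum := by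
          intro l
          induction l with
          | nil => simp
          | cons p l ih =>
            simp only [List.map_cons, List.sum_cons, ih, Pi.add_apply]
            ring
        rw [e, e, h1, h2]
      · intro c w _ h1
        have e : ∀ l : List P, (l.map (c • w)).sum = c * (l.map w).sum := by
          intro l
          induction l with
          | nil => simp
          | cons p l ih =>
            simp only [List.map_cons, List.sum_cons, ih, Pi.smul_apply, smul_eq_mul]
            ring
        rw [e, e, h1]
    have h3 : (((l.map (L i)).sum : ℕ) : ℚ) = (((l'.map (L i)).sum : ℕ) : ℚ) := by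
      rw [hcast, hcast, hw]
    exact_mod_cast h3
  rcases s.eq_empty_or_nonempty with hs | ⟨i0, hi0⟩
  · subst hs
    refine ⟨∅, Set.Subset.refl _, Set.finite_empty, by simp, fun h => h, fun l l' _ i hi => ?_⟩
    exact absurd hi (Set.notMem_empty i)
  · refine ⟨insert i0 t0, Set.insert_subset hi0 ht0s, ht0fin.insert i0, ?_,
      fun _ => ⟨i0, Set.mem_insert _ _⟩, fun l l' h => key l l' fun i hi => h i (Or.inr hi)⟩
    exact (Set.ncard_insert_le i0 t0).trans (Nat.add_le_add_right ht0card 1)

end H47.SW
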