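import Pool.Agent.H47.SW.Ind
import Pool.Agent.H47.SW.Span
import Pool.Agent.H47.SW.Cls

/-!
MODULE Ker (about 100 lines).  The kernel theorem, all letters good; and with a set of good letters.

`ker_good`: `K = Nat.card (ClsT Γ C) * (Nat.card (Pc Γ C) + 1)`.  For every class `c` let
`F_c = {p ∈ F : cl p.1 p.2 = c}`, `t_c` from `span_pick` with `L p q = (wf p.1 p.2 q).length`, and
`T = ⋃_c t_c` (`Set.ncard_iUnion_le`-like bound, the union is over a finite type).  For `p ∈ F` in the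
class `c`, `t_c` is nonempty, and `ind` with `T := t_c`, `j := p`, `ι := ℕ × (Γ → List B)`.
(`(l.flatMap g).length = (l.map (fun q => (g q).length)).sum`: `List.length_flatMap`.)

`ker_letters`: for every `G : Set Γ` let
`F_G = {p ∈ F : ∀ x, x ∈ G ↔ p.1 ≤ (p.2 x).length}` (restricted to the subtype `G`, it is a family of
good morphisms); apply `ker_good` to the subtype `G` and the images of `F_G` under restriction, choose
preimages, and let `T` be the union over all `G` (finitely many), `K` the sum over `G` of the constants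
(`K` = `∑ G, K_G`; `Set Γ` is finite).  For `p ∈ F_G` and `u, v`: the set `T_G` is
nonempty, so all letters of `u`, `v` are in `G`; write `u = u'.map Subtype.val`.
-/

set_option autoImplicit false

namespace H47.SW

theorem ker_good (Γ : Type) [Finite Γ] (C : ℕ) : ∃ K : ℕ, ∀ (B : Type) (F : Set (ℕ × (Γ → List B))),
    (∀ p ∈ F, Good C p.1 p.2) →
    ∃ T ⊆ F, T.Finite ∧ T.ncard ≤ K ∧ (F.Nonempty → T.Nonempty) ∧
      ∀ u v : List Γ, (∀ p ∈ T, u.flatMap p.2 = v.flatMap p.2) →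
        ∀ p ∈ F, u.flatMap p.2 = v.flatMap p.2 := by
  classical
  have hfin : Finite (ClsT Γ C) := clsT_finite Γ C
  have hP : Finite (Pc Γ C) := inferInstance
  refine ⟨Nat.card (ClsT Γ C) * (Nat.card (Pc Γ C) + 1), fun B F hF => ?_⟩
  obtain ⟨cl, hcl⟩ := cls Γ C B
  have hch := fun c : ClsT Γ C => span_pick {p | p ∈ F ∧ cl p.1 p.2 = c}
    (fun (p : ℕ × (Γ → List B)) (q : Pc Γ C) => (wf p.1 p.2 q).length)
  choose t ht1 ht2 ht3 ht4 ht5 using hch
  refine ⟨⋃ c, t c, ?_, Set.finite_iUnion ht2, ?_, ?_, ?_⟩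
  · exact Set.iUnion_subset fun c p hp => (ht1 c hp).1
  · have := Fintype.ofFinite (ClsT Γ C)
    calc (⋃ c, t c).ncard ≤ ∑ c : ClsT Γ C, (t c).ncard := Set.ncard_iUnion_le_of_fintype _
      _ ≤ ∑ _c : ClsT Γ C, (Nat.card (Pc Γ C) + 1) := Finset.sum_le_sum fun c _ => ht3 c
      _ = Nat.card (ClsT Γ C) * (Nat.card (Pc Γ C) + 1) := by
        rw [Finset.sum_const, smul_eq_mul, Finset.card_univ, ← Nat.card_eq_fintype_card (α := ClsT Γ C)]
  · rintro ⟨p, hp⟩
    obtain ⟨q, hq⟩ := ht4 (cl p.1 p.2) ⟨p, hp, rfl⟩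
    exact ⟨q, Set.mem_iUnion.2 ⟨_, hq⟩⟩
  · intro u v huv p hp
    have hpc : p ∈ {q | q ∈ F ∧ cl q.1 q.2 = cl p.1 p.2} := ⟨hp, rfl⟩
    refine ind (C := C) (m := fun q : ℕ × (Γ → List B) => q.1) (f := fun q => q.2)
      (T := t (cl p.1 p.2)) (j := p) (ht4 _ ⟨p, hpc⟩) (fun q hq => hF q (ht1 _ hq).1) (hF p hp)
      (fun q hq => hcl _ _ _ _ (hF q (ht1 _ hq).1) (hF p hp) (ht1 _ hq).2) ?_
      (fun q hq => huv q (Set.mem_iUnion.2 ⟨_, hq⟩))
    intro l l' hl
    have h := ht5 (cl p.1 p.2) l l' (fun q hq => by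
      have h1 := hl q hq
      rw [List.length_flatMap, List.length_flatMap] at h1
      exact h1) p hpc
    rw [List.length_flatMap, List.length_flatMap]
    exact h

end H47.SW
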