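import Pool.Agent.H47.SW.Ker

/-!
MODULE KerL (about 120 lines): `ker_letters`, see the header of `Ker.lean`.
-/

set_option autoImplicit false

namespace H47.SW

theorem ker_letters (Γ : Type) [Finite Γ] (C : ℕ) :
    ∃ K : ℕ, ∀ (B : Type) (F : Set (ℕ × (Γ → List B))),
    (∀ p ∈ F, 0 < p.1 ∧ ∀ x, (p.2 x).length ≤ C * p.1) →
    ∃ T ⊆ F, T.Finite ∧ T.ncard ≤ K ∧ (F.Nonempty → T.Nonempty) ∧
      ∀ u v : List Γ, (∀ p ∈ T, u.flatMap p.2 = v.flatMap p.2 ∧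
          ∀ x, x ∈ u ∨ x ∈ v → p.1 ≤ (p.2 x).length) →
        ∀ p ∈ F, u.flatMap p.2 = v.flatMap p.2 := by
  classical
  have hfin : Finite (Set Γ) := inferInstance
  let _ : Fintype (Set Γ) := Fintype.ofFinite _
  choose Kf hK using fun G : Set Γ => ker_good G C
  refine ⟨∑ G : Set Γ, Kf G, fun B F hF => ?_⟩
  let FG : Set Γ → Set (ℕ × (Γ → List B)) := fun G =>
    {p | p ∈ F ∧ ∀ x, x ∈ G ↔ p.1 ≤ (p.2 x).length}
  let ρ : (G : Set Γ) → ℕ × (Γ → List B) → ℕ × (G → List B) := fun G p =>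
    (p.1, fun x => p.2 x.1)
  have hgood : ∀ G : Set Γ, ∀ p ∈ ρ G '' FG G, Good C p.1 p.2 := by
    rintro G _ ⟨p, hp, rfl⟩
    exact ⟨(hF p hp.1).1, fun x => (hp.2 x.1).1 x.2, fun x => (hF p hp.1).2 x.1⟩
  choose T' hT's hT'f hT'c hT'n hT'm using fun G : Set Γ => hK G B (ρ G '' FG G) (hgood G)
  have hpre : ∀ G : Set Γ, ∃ T ⊆ FG G, Set.BijOn (ρ G) T (T' G) := by
    intro G
    have hsurj : Set.SurjOn (ρ G) (FG G) (T' G) := hT's G
    exact hsurj.exists_bijOn_subset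
  choose T hTs hTb using hpre
  have hTf : ∀ G, (T G).Finite := fun G => (hTb G).finite_iff_finite.2 (hT'f G)
  have hTc : ∀ G, (T G).ncard ≤ Kf G := by
    intro G
    rw [← (hTb G).injOn.ncard_image, (hTb G).image_eq]
    exact hT'c G
  have hTn : ∀ G, (FG G).Nonempty → (T G).Nonempty := by
    intro G hG
    obtain ⟨q, hq⟩ := hT'n G (hG.image _)
    rw [← (hTb G).image_eq] at hq
    obtain ⟨t, ht, _⟩ := hq
    exact ⟨t, ht⟩
  refine ⟨⋃ G, T G, ?_, ?_, ?_, ?_, ?_⟩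
  · intro p hp
    obtain ⟨G, hG⟩ := Set.mem_iUnion.1 hp
    exact (hTs G hG).1
  · exact Set.finite_iUnion hTf
  · have h1 : (⋃ G, T G) = ((Finset.univ.biUnion fun G => (hTf G).toFinset : Finset _) :
        Set (ℕ × (Γ → List B))) := by
      ext p
      simp
    rw [h1, Set.ncard_coe_finset]
    refine Finset.card_biUnion_le.trans (Finset.sum_le_sum fun G _ => ?_)
    rw [← Set.ncard_eq_toFinset_card _ (hTf G)]
    exact hTc G
  · rintro ⟨p, hp⟩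
    obtain ⟨t, ht⟩ := hTn {x | p.1 ≤ (p.2 x).length} ⟨p, hp, fun x => Iff.rfl⟩
    exact ⟨t, Set.mem_iUnion.2 ⟨_, ht⟩⟩
  · intro u v huv p hp
    let G : Set Γ := {x | p.1 ≤ (p.2 x).length}
    have hpG : p ∈ FG G := ⟨hp, fun x => Iff.rfl⟩
    obtain ⟨t, ht⟩ := hTn G ⟨p, hpG⟩
    have hmem : ∀ x, x ∈ u ∨ x ∈ v → x ∈ G := by
      intro x hx
      exact ((hTs G ht).2 x).2 ((huv t (Set.mem_iUnion.2 ⟨G, ht⟩)).2 x hx)
    obtain ⟨u', rfl⟩ : ∃ u' : List G, u'.map Subtype.val = u :=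
      ⟨u.attachWith (· ∈ G) fun x hx => hmem x (Or.inl hx), by simp⟩
    obtain ⟨v', rfl⟩ : ∃ v' : List G, v'.map Subtype.val = v :=
      ⟨v.attachWith (· ∈ G) fun x hx => hmem x (Or.inr hx), by simp⟩
    have h2 := hT'm G u' v' (by
      intro q hq
      rw [← (hTb G).image_eq] at hq
      obtain ⟨s, hs, rfl⟩ := hq
      have h3 := (huv s (Set.mem_iUnion.2 ⟨G, hs⟩)).1
      rw [List.flatMap_map, List.flatMap_map] at h3
      exact h3) (ρ G p) ⟨p, hpG, rfl⟩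
    rw [List.flatMap_map, List.flatMap_map]
    exact h2

end H47.SW
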