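import Pool.Agent.H47.SW.Per

/-!
MODULE Lab (about 150 lines).  Elementary properties of the labelling `lab m W`.

The label at position `i` is `decide (Pm m (W.drop i))`, it depends only on the window
`(W.drop i).take (hw m)` (and on its existence).

* `lab_false`: a factor of `L1.map fst` of length `>= m/2` has length `>= hw m`, so it contains (as a
  prefix) the window at some position `i < L1.length`; the label there is `false`, so the window is
  not `PerW m`, so the factor is not (`PerW.sub_of`).
* `lab_true`: let `p` be the period of the window at `0`; all windows at `0, ..., L1.length - 1` are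
  `PerW m`; by induction on `j` (lemma `glue` with `a = j + 1`, `n = j + h`,
  `1 + p + q <= h` because `8 p, 8 q <= m`, `m >= 8`) the word `W.take (j + h)` has period `p`;
  take the prefix of length `L1.length`.
* `lab_gap`: if the positions `0` and `i' = L1.length + L2.length` are labelled `true` and
  `4 i' <= m` then `W.take (i' + h)` has the period `p` of the first window (`glue` with `a = i'`,
  `n = h`, `i' + p + q <= h` since `4 (i' + p + q) <= m + m/2 + m/2 = 2 m`), so the window
  at position `L1.length` (label `false`) is `PerW m`: contradiction.
-/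

set_option autoImplicit false

namespace H47.SW

variable {B : Type}

@[simp] theorem lab_map_fst (m : ℕ) (W : List B) : (lab m W).map Prod.fst = W := by
  induction W with
  | nil => rfl
  | cons b V ih => simp [lab, ih]

@[simp] theorem lab_length (m : ℕ) (W : List B) : (lab m W).length = W.length := by
  rw [← List.length_map (f := Prod.fst), lab_map_fst]

private theorem lab_get (m : ℕ) (W : List B) (i : ℕ) (x : B × Bool)
    (h : (lab m W)[i]? = some x) : x.2 = true ↔ Pm m (W.drop i) := by
  induction W generalizing i with
  | nil => simp [lab] at h
  | cons b V ih =>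
    cases i with
    | zero =>
      simp only [lab, List.getElem?_cons_zero, Option.some.injEq] at h
      rw [← h, List.drop_zero]
      simp
    | succ i =>
      simp only [lab, List.getElem?_cons_succ] at h
      rw [List.drop_succ_cons]
      exact ih i h

private theorem hasPer_take {p k n : ℕ} {w : List B} (h : HasPer p (w.take n)) (hk : k ≤ n) :
    HasPer p (w.take k) := by
  apply h.sub_of
  have : w.take k = (w.take n).take k := by rw [List.take_take, min_eq_left hk]
  rw [this]
  exact (List.take_prefix _ _).isInfix

/-- A suffix of a labelling is the labelling of its word. -/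
theorem lab_suffix {m : ℕ} {W : List B} {L1 L2 : List (B × Bool)} (h : lab m W = L1 ++ L2) :
    L2 = lab m (L2.map Prod.fst) := by
  induction L1 generalizing W with
  | nil =>
    rw [List.nil_append] at h
    rw [← h, lab_map_fst]
  | cons x L1 ih =>
    cases W with
    | nil => simp [lab] at h
    | cons b V =>
      simp only [lab, List.cons_append, List.cons.injEq] at h
      exact ih h.2

/-- A factor with all labels `false` is aperiodic. -/
theorem lab_false {m : ℕ} {W : List B} {L1 L2 : List (B × Bool)} (hm : 0 < m)
    (h : lab m W = L1 ++ L2) (hf : ∀ x ∈ L1, x.2 = false) : Aper m (L1.map Prod.fst) := by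
  intro z hz hmz hper
  obtain ⟨s, t, hst⟩ := hz
  have hW : W = L1.map Prod.fst ++ L2.map Prod.fst := by
    rw [← lab_map_fst m W, h, List.map_append]
  have hhw : hw m ≤ z.length := by unfold hw; omega
  have hz0 : 0 < z.length := by omega
  have hlen : s.length + z.length + t.length = L1.length := by
    have := congrArg List.length hst
    simp only [List.length_append, List.length_map] at this
    exact this
  have hdrop : W.drop s.length = z ++ (t ++ L2.map Prod.fst) := by
    rw [hW, ← hst, List.append_assoc, List.append_assoc, List.drop_left]
  have hget : (lab m W)[s.length]? = some L1[s.length] := by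
    rw [h, List.getElem?_append_left (by omega)]
    exact List.getElem?_eq_getElem (by omega)
  have h1 := lab_get m W s.length _ hget
  have h2 : L1[s.length].2 = false := hf _ (List.getElem_mem _)
  have h3 : Pm m (W.drop s.length) := by
    rw [hdrop]
    refine ⟨by simp only [List.length_append]; omega, ?_⟩
    rw [List.take_append_of_le_length hhw]
    exact hper.sub_of (List.take_prefix _ _).isInfix
  rw [h1.mpr h3] at h2
  exact Bool.noConfusion h2

/-- A factor with all labels `true` has a small period. -/
theorem lab_true {m : ℕ} {W : List B} {L1 L2 : List (B × Bool)} (hm : 0 < m)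
    (h : lab m W = L1 ++ L2) (h1 : L1 ≠ []) (hf : ∀ x ∈ L1, x.2 = true) :
    PerW m (L1.map Prod.fst) := by
  have hL : 0 < L1.length := List.length_pos_iff.mpr h1
  have hW : W = L1.map Prod.fst ++ L2.map Prod.fst := by
    rw [← lab_map_fst m W, h, List.map_append]
  have hwin : ∀ i, i < L1.length → Pm m (W.drop i) := by
    intro i hi
    have hget : (lab m W)[i]? = some L1[i] := by
      rw [h, List.getElem?_append_left hi]
      exact List.getElem?_eq_getElem hi
    exact (lab_get m W i _ hget).mp (hf _ (List.getElem_mem _))
  obtain ⟨hh0, p, hp0, hp8, hp⟩ := hwin 0 hL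
  rw [List.drop_zero] at hh0 hp
  have hhw : hw m = (m + 1) / 2 := rfl
  have key : ∀ j, j < L1.length → HasPer p (W.take (j + hw m)) := by
    intro j
    induction j with
    | zero => intro _; rw [zero_add]; exact hp
    | succ j ih =>
      intro hj
      obtain ⟨hl, q, hq0, hq8, hq⟩ := hwin (j + 1) hj
      rw [List.length_drop] at hl
      exact glue hp0 hq0 (ih (by omega)) hq (by omega) (by omega)
  refine ⟨p, hp0, hp8, ?_⟩
  have h2 := key (L1.length - 1) (by omega)
  have h3 : L1.map Prod.fst = W.take L1.length := by
    rw [hW]
    rw [List.take_append_of_le_length (by simp), List.take_of_length_le (by simp)]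
  rw [h3]
  exact hasPer_take h2 (by omega)

/-- The labels of `V1` are determined by `V1` and the next `hw m` letters. -/
theorem lab_loc {m : ℕ} {V1 V2 V3 : List B} (h : hw m ≤ V2.length) :
    (lab m (V1 ++ (V2 ++ V3))).take V1.length = (lab m (V1 ++ V2)).take V1.length := by
  induction V1 with
  | nil => simp
  | cons b V1 ih =>
    simp only [List.cons_append, lab, List.length_cons, List.take_succ_cons]
    rw [ih]
    have e : Pm m (b :: (V1 ++ (V2 ++ V3))) ↔ Pm m (b :: (V1 ++ V2)) := by
      unfold Pm
      have e1 : b :: (V1 ++ (V2 ++ V3)) = (b :: (V1 ++ V2)) ++ V3 := by simp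
      have e2 : hw m ≤ (b :: (V1 ++ V2)).length := by
        simp only [List.length_cons, List.length_append]; omega
      rw [e1, List.take_append_of_le_length e2]
      constructor
      · rintro ⟨-, h2⟩
        exact ⟨e2, h2⟩
      · rintro ⟨-, h2⟩
        exact ⟨by rw [List.length_append]; omega, h2⟩
    congr 2
    classical
    exact decide_eq_decide.mpr e

/-- The beginnings of two different `true` blocks have distance more than `m / 4`. -/
theorem lab_gap {m : ℕ} {W : List B} {L1 L2 L3 : List (B × Bool)} (hm : 0 < m)
    (h : lab m W = L1 ++ (L2 ++ L3)) (h1 : L1 ≠ []) (h2 : L2 ≠ []) (h3 : L3 ≠ [])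
    (t1 : ∀ x ∈ L1, x.2 = true) (t2 : ∀ x ∈ L2, x.2 = false)
    (t3 : ∀ x, L3.head? = some x → x.2 = true) : m < 4 * (L1.length + L2.length) := by
  by_contra hcon
  push Not at hcon
  have l1 : 0 < L1.length := List.length_pos_iff.mpr h1
  have l2 : 0 < L2.length := List.length_pos_iff.mpr h2
  have l3 : 0 < L3.length := List.length_pos_iff.mpr h3
  have hhw : hw m = (m + 1) / 2 := rfl
  have w0 : Pm m (W.drop 0) := by
    have hget : (lab m W)[0]? = some L1[0] := by
      rw [h, List.getElem?_append_left l1]
      exact List.getElem?_eq_getElem l1
    exact (lab_get m W 0 _ hget).mp (t1 _ (List.getElem_mem _))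
  have w3 : Pm m (W.drop (L1.length + L2.length)) := by
    have hget : (lab m W)[L1.length + L2.length]? = some L3[0] := by
      rw [h, ← List.append_assoc, List.getElem?_append_right (by simp)]
      simp only [List.length_append, Nat.sub_self]
      exact List.getElem?_eq_getElem l3
    refine (lab_get m W _ _ hget).mp (t3 _ ?_)
    rw [List.head?_eq_getElem?]
    exact List.getElem?_eq_getElem l3
  have w2 : ¬ Pm m (W.drop L1.length) := by
    have hget : (lab m W)[L1.length]? = some L2[0] := by
      rw [h, List.getElem?_append_right le_rfl, Nat.sub_self, List.getElem?_append_left l2]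
      exact List.getElem?_eq_getElem l2
    intro hP
    have h4 := (lab_get m W _ _ hget).mpr hP
    rw [t2 _ (List.getElem_mem _)] at h4
    exact Bool.noConfusion h4
  obtain ⟨hh0, p, hp0, hp8, hp⟩ := w0
  rw [List.drop_zero] at hh0 hp
  obtain ⟨hl, q, hq0, hq8, hq⟩ := w3
  rw [List.length_drop] at hl
  have hg := glue hp0 hq0 hp hq (by omega) (by omega)
  apply w2
  refine ⟨by rw [List.length_drop]; omega, p, hp0, hp8, ?_⟩
  apply hg.sub_of
  have e : (W.drop L1.length).take (hw m) = (W.take (L1.length + hw m)).drop L1.length := by
    rw [List.drop_take, Nat.add_sub_cancel_left]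
  rw [e]
  have e2 : W.take (L1.length + hw m) <:+: W.take (L1.length + L2.length + hw m) := by
    have : W.take (L1.length + hw m) = (W.take (L1.length + L2.length + hw m)).take
        (L1.length + hw m) := by
      rw [List.take_take, min_eq_left (by omega)]
    rw [this]
    exact (List.take_prefix _ _).isInfix
  exact (List.drop_suffix _ _).isInfix.trans e2

end H47.SW
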