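import Pool.Agent.H47.SW.Lab

/-!
MODULE Loc (about 60 lines).  The labelling of `u.flatMap f` is the image of `ext u` under `ft m f`.

Proof by induction on `u`.  For `u = x :: x' :: r`: `u.flatMap f = f x ++ (f x' ++ R)` with
`R = r.flatMap f`, and `hw m <= m <= (f x').length`; so by `lab_loc` the first `(f x).length`
labels are those of `lab m (f x ++ f x')`, i.e. `ft m f (x, some x')`, and the rest is
`lab m (f x' ++ R)` (`lab_suffix` for the splitting `take ++ drop`, `lab_map_fst`), which is
`(ext (x' :: r)).flatMap (ft m f)` by induction.
-/

set_option autoImplicit false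

namespace H47.SW

variable {Γ B : Type}

theorem loc {C m : ℕ} {f : Γ → List B} (hf : Good C m f) (u : List Γ) :
    lab m (u.flatMap f) = (ext u).flatMap (ft m f) := by
  induction u with
  | nil => rfl
  | cons x r ih =>
    rw [ext, List.flatMap_cons, List.flatMap_cons, ← ih]
    have h1 : lab m (f x ++ r.flatMap f) =
        (lab m (f x ++ r.flatMap f)).take (f x).length ++
          (lab m (f x ++ r.flatMap f)).drop (f x).length :=
      (List.take_append_drop _ _).symm
    have h2 : (lab m (f x ++ r.flatMap f)).drop (f x).length = lab m (r.flatMap f) := by
      rw [lab_suffix h1, List.map_drop, lab_map_fst, List.drop_left]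
    have h3 : (lab m (f x ++ r.flatMap f)).take (f x).length = ft m f (x, r.head?) := by
      cases r with
      | nil => rfl
      | cons x' r' =>
        have h4 : hw m ≤ (f x').length := by
          have h5 := hf.lo x'
          have h6 := hf.pos
          unfold hw
          omega
        rw [List.flatMap_cons, lab_loc h4]
        rfl
    rw [h1, h2, h3]

theorem ft_length {m : ℕ} (f : Γ → List B) (X : Γ × Option Γ) :
    (ft m f X).length = (f X.1).length := by
  unfold ft
  rw [List.length_take, lab_length, List.length_append]
  omega

end H47.SW
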