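import Pool.Agent.H47.SW.Cnt

/-!
MODULES PcA (this file, about 130 lines: pl_wd, wd_ne_nil, wd_const) and PcB.  The pieces of a word.

`PL n u` is the concatenation over the extended letters `X` of `ext u` of the pieces
`(X, 0), ..., (X, n X - 1)`.  For `n = nr m f` and `f` good, `nr m f X <= QQ C` (`nr_le`), so
the pieces of `X` enumerate all blocks of `runs (ft m f X)` and their concatenation is `ft m f X`
(`List.flatten_splitBy`).

* `pl_wd`: from this and `loc`.
* `wd_ne_nil`, `wd_const`: blocks are nonempty (`List.nil_notMem_splitBy`) and have constant label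
  (`List.isChain_of_mem_splitBy`, transitivity of equality).
* `pl_chain`: two consecutive pieces in `PL` are either `(X, r), (X, r + 1)`: then their labels are
  different (`List.isChain_getLast_head_splitBy`), or `(X, n X - 1), (X', 0)`
  (note `n X > 0` because `ft m f X` is nonempty as `(f X.1).length >= m > 0`).
* `wf_full`: if `nr m f X = 1` then the only block is `ft m f X`, whose word is `f X.1`
  (`lab_map_fst`, `List.map_take`).
* `wf_le`: a block of `ft m f X` has length at most `(ft m f X).length = (f X.1).length <= C m`;
  for invalid pieces the word is empty.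
-/

set_option autoImplicit false

namespace H47.SW

variable {Γ B : Type}

private theorem pcA_map {α : Type} (Q : ℕ) (l : List (List α)) (h : l.length ≤ Q) :
    ((List.finRange Q).take l.length).map (fun r : Fin Q => l.getD r.val []) = l := by
  apply List.ext_getElem
  · simp [h]
  · intro i h1 h2
    rw [List.getElem_map, List.getElem_take, List.getElem_finRange]
    exact List.getD_eq_getElem _ _ h2

private theorem pcA_chain (L : List (B × Bool)) : ∀ a : B × Bool,
    (a :: L).IsChain (fun x y => (x.2 == y.2) = true) → ∀ x ∈ a :: L, x.2 = a.2 := by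
  induction L with
  | nil =>
    intro a _ x hx
    simp only [List.mem_cons, List.not_mem_nil, or_false] at hx
    rw [hx]
  | cons b L ih =>
    intro a h x hx
    rw [List.isChain_cons_cons] at h
    rcases List.mem_cons.1 hx with rfl | hx
    · rfl
    · have h1 := ih b h.2 x hx
      have h2 : a.2 = b.2 := by simpa using h.1
      rw [h1, h2]

theorem pl_wd {C m : ℕ} {f : Γ → List B} (hf : Good C m f) (u : List Γ) :
    (PL (C := C) (nr m f) u).flatMap (wd m f) = lab m (u.flatMap f) := by
  rw [loc hf u]
  unfold PL
  rw [List.flatMap_assoc]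
  refine List.flatMap_congr fun X _ => ?_
  rw [List.flatMap_map]
  have h1 : (runs (ft m f X)).length ≤ QQ C := nr_le hf X
  have h2 := pcA_map (QQ C) (runs (ft m f X)) h1
  have h3 : ((List.finRange (QQ C)).take (nr m f X)).flatMap
      (fun r => wd m f ((X, r) : Pc Γ C)) = (runs (ft m f X)).flatten := by
    rw [List.flatMap_def]
    exact congrArg List.flatten h2
  refine h3.trans ?_
  unfold runs
  exact List.flatten_splitBy _ _

theorem wd_ne_nil {C m : ℕ} {f : Γ → List B} {u : List Γ} {p : Pc Γ C}
    (hp : p ∈ PL (C := C) (nr m f) u) : wd m f p ≠ [] := by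
  unfold PL at hp
  rw [List.mem_flatMap] at hp
  obtain ⟨X, _, hp⟩ := hp
  rw [List.mem_map] at hp
  obtain ⟨r, hr, rfl⟩ := hp
  rw [List.mem_take_iff_getElem] at hr
  obtain ⟨i, hi, hir⟩ := hr
  have hri : r.val = i := by
    rw [← hir, List.getElem_finRange]
    rfl
  have hlt : r.val < (runs (ft m f X)).length := by
    rw [hri]
    exact lt_of_lt_of_le hi (min_le_left _ _)
  have h1 : wd m f ((X, r) : Pc Γ C) = (runs (ft m f X))[r.val] :=
    List.getD_eq_getElem _ _ hlt
  rw [h1]
  intro h0
  have h2 : ([] : List (B × Bool)) ∈ runs (ft m f X) := by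
    rw [← h0]
    exact List.getElem_mem hlt
  exact List.nil_notMem_splitBy _ _ h2

theorem wd_const {C m : ℕ} (f : Γ → List B) (p : Pc Γ C) :
    ∀ x ∈ wd m f p, x.2 = lbl m f p := by
  intro x hx
  unfold lbl
  by_cases hlt : p.2.val < (runs (ft m f p.1)).length
  · have h1 : wd m f p = (runs (ft m f p.1))[p.2.val] := List.getD_eq_getElem _ _ hlt
    have h2 : (wd m f p).IsChain (fun x y => (x.2 == y.2) = true) := by
      rw [h1]
      exact List.isChain_of_mem_splitBy (List.getElem_mem hlt)
    revert hx h2
    cases wd m f p with
    | nil => intro hx; exact absurd hx (List.not_mem_nil)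
    | cons a L =>
      intro hx h2
      simpa using pcA_chain L a h2 x hx
  · have h1 : wd m f p = [] := List.getD_eq_default _ _ (not_lt.1 hlt)
    rw [h1] at hx
    exact absurd hx (List.not_mem_nil)

end H47.SW
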