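import Pool.Agent.H47.SW.Defs

set_option autoImplicit false

namespace H47.SW

variable {B : Type}

theorem HasPer.sub_of {p : ℕ} {w z : List B} (h : HasPer p w) (hz : z <:+: w) : HasPer p z := by
  obtain ⟨s, t, rfl⟩ := hz
  intro i hi
  have e : ∀ j, j < z.length → (s ++ z ++ t)[s.length + j]? = z[j]? := by
    intro j hj
    rw [List.append_assoc, List.getElem?_append_right (by omega), Nat.add_sub_cancel_left,
      List.getElem?_append_left hj]
  have h1 := h (s.length + i) (by simp only [List.length_append]; omega)
  rw [show s.length + i + p = s.length + (i + p) by ring, e i (by omega), e (i + p) hi] at h1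
  exact h1

theorem PerW.sub_of {m : ℕ} {w z : List B} (h : PerW m w) (hz : z <:+: w) : PerW m z := by
  obtain ⟨p, h1, h2, h3⟩ := h
  exact ⟨p, h1, h2, h3.sub_of hz⟩

theorem Aper.sub_of {m : ℕ} {w z : List B} (h : Aper m w) (hz : z <:+: w) : Aper m z :=
  fun y hy => h y (hy.trans hz)

/-- A prefix of period `p` and a window of period `q` starting at `a` which overlap in at least
`p + q` letters: the union has the period `p`. -/
theorem glue {w : List B} {a n h p q : ℕ} (hp : 0 < p) (hq : 0 < q)
    (h1 : HasPer p (w.take n)) (h2 : HasPer q ((w.drop a).take h))
    (h3 : a + p + q ≤ n) (h5 : a + h ≤ w.length) : HasPer p (w.take (a + h)) := by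
  have g1 : ∀ i, i + p < n → i + p < w.length → w[i]? = w[i + p]? := by
    intro i hi hi'
    have := h1 i (by rw [List.length_take]; omega)
    rw [List.getElem?_take_of_lt (by omega), List.getElem?_take_of_lt (by omega)] at this
    exact this
  have g2 : ∀ i, a ≤ i → i + q < a + h → w[i]? = w[i + q]? := by
    intro i hi hi'
    have := h2 (i - a) (by rw [List.length_take, List.length_drop]; omega)
    rw [List.getElem?_take_of_lt (by omega), List.getElem?_take_of_lt (by omega),
      List.getElem?_drop, List.getElem?_drop] at this
    rw [show a + (i - a) = i by omega, show a + (i - a + q) = i + q by omega] at this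
    exact this
  have key : ∀ s, s < a + h → ∀ i, i + p = s → w[i]? = w[i + p]? := by
    intro s
    induction s using Nat.strong_induction_on with
    | _ s ih =>
      intro hs i hi
      by_cases hn : i + p < n
      · exact g1 i hn (by omega)
      · have e1 : w[i - q]? = w[i]? := by
          have := g2 (i - q) (by omega) (by omega)
          rwa [show i - q + q = i by omega] at this
        have e2 : w[i + p - q]? = w[i + p]? := by
          have := g2 (i + p - q) (by omega) (by omega)
          rwa [show i + p - q + q = i + p by omega] at this
        have e3 : w[i - q]? = w[i - q + p]? := ih (i - q + p) (by omega) (by omega) (i - q) rfl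
        rw [show i - q + p = i + p - q by omega] at e3
        rw [← e1, e3, e2]
  intro i hi
  rw [List.length_take] at hi
  rw [List.getElem?_take_of_lt (by omega), List.getElem?_take_of_lt (by omega)]
  exact key (i + p) (by omega) i rfl

/-- Two words of equal length with periods `p`, `q` and a common prefix of length at least
`p + q` are equal. -/
theorem eq_of_per {w w' : List B} {p q n : ℕ} (hp : 0 < p) (hq : 0 < q)
    (h1 : HasPer p w) (h2 : HasPer q w') (hn : p + q ≤ n)
    (hpre : w.take n = w'.take n) (hlen : w.length = w'.length) : w = w' := by
  have key : ∀ i : ℕ, w[i]? = w'[i]? := by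
    intro i
    induction i using Nat.strong_induction_on with
    | _ i ih =>
      by_cases hi : i < n
      · have : (w.take n)[i]? = (w'.take n)[i]? := by rw [hpre]
        rwa [List.getElem?_take_of_lt hi, List.getElem?_take_of_lt hi] at this
      · by_cases hl : i < w.length
        · have a1 : w[i - p]? = w[i]? := by
            have := h1 (i - p) (by omega)
            rwa [show i - p + p = i by omega] at this
          have a2 : w'[i - p - q]? = w'[i - p]? := by
            have := h2 (i - p - q) (by omega)
            rwa [show i - p - q + q = i - p by omega] at this
          have a3 : w[i - p - q]? = w[i - q]? := by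
            have := h1 (i - p - q) (by omega)
            rwa [show i - p - q + p = i - q by omega] at this
          have a4 : w'[i - q]? = w'[i]? := by
            have := h2 (i - q) (by omega)
            rwa [show i - q + q = i by omega] at this
          rw [← a1, ih (i - p) (by omega), ← a2, ← ih (i - p - q) (by omega), a3,
            ih (i - q) (by omega), a4]
        · rw [List.getElem?_eq_none (by omega), List.getElem?_eq_none (by omega)]
  exact List.ext_getElem? key

end H47.SW
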