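import Pool.Agent.H47.SW.ResD

/-!
MODULE ResL (about 70 lines).  Homomorphisms of free monoids and lists.
-/

set_option autoImplicit false

namespace H47.SW

open FreeMonoid

variable {A B : Type}

theorem li_flatMap (g : FreeMonoid A →* FreeMonoid B) (x : FreeMonoid A) :
    x.toList.flatMap (li g) = (g x).toList := by
  induction x using FreeMonoid.inductionOn' with
  | one => simp
  | of_mul a x ih =>
    rw [MonoidHom.map_mul, toList_mul, toList_mul, ← ih, toList_of, List.flatMap_append]
    simp [li]

theorem li_inj {g h : FreeMonoid A →* FreeMonoid B} (h' : li g = li h) : g = h := by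
  refine FreeMonoid.hom_eq fun a => ?_
  have h1 : (g (of a)).toList = (h (of a)).toList := congrFun h' a
  exact toList.injective h1

private theorem resL_one (g : FreeMonoid A →* FreeMonoid B) (a : A) :
    g (of a) ≠ 1 ↔ li g a ≠ [] := by
  unfold li
  constructor
  · intro h h1
    exact h (toList.injective h1)
  · intro h h1
    exact h (by rw [h1]; rfl)

theorem visible_eq (g : FreeMonoid A →* FreeMonoid B) (w : FreeMonoid A) :
    visible g w = vis (li g) w.toList := by
  unfold visible vis
  rw [List.filter_congr fun a _ => (decide_eq_decide.2 (resL_one g a))]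

private theorem resL_half {N : ℕ} {g : FreeMonoid A →* FreeMonoid B} {x : FreeMonoid A}
    (h : ∀ y w z, x = y * w * z → N ≤ visible g w → ∀ a, (g (of a)).length ≤ N * (g w).length) :
    ∀ w, w <:+: x.toList → N ≤ vis (li g) w →
      ∀ a, (li g a).length ≤ N * (w.flatMap (li g)).length := by
  rintro w ⟨y, z, e⟩ hN a
  have h1 := h (ofList y) (ofList w) (ofList z) (toList.injective (by
    rw [toList_mul, toList_mul, toList_ofList, toList_ofList, toList_ofList, e])) (by
    rw [visible_eq, toList_ofList]
    exact hN) a
  have h2 := li_flatMap g (ofList w)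
  rw [toList_ofList] at h2
  rw [h2]
  exact h1

theorem spread_spr {N : ℕ} {p : (FreeMonoid A →* FreeMonoid B) × (FreeMonoid A →* FreeMonoid B)}
    {x : FreeMonoid A} (h : Spread N p x) : Spr N (li p.1) (li p.2) x.toList := by
  refine ⟨resL_half h.1, resL_half h.2.1, ?_, ?_⟩
  · rw [← visible_eq, ← visible_eq]
    exact h.2.2.1
  · rw [← visible_eq, ← visible_eq]
    exact h.2.2.2

end H47.SW
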