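import Pool.Agent.H47.SW.FinB
import Pool.Agent.H47.SW.ResL

/-!
The main theorem for homomorphisms of free monoids (proved from `fin_list`).
-/

set_option autoImplicit false

namespace H47.SW

open FreeMonoid

variable {A B : Type}

theorem main (A : Type) [Finite A] (N : ℕ) :
    ∃ K : ℕ, ∀ (B : Type)
      (S : Set ((FreeMonoid A →* FreeMonoid B) × (FreeMonoid A →* FreeMonoid B))),
      ∃ T ⊆ S, T.Finite ∧ T.ncard ≤ K ∧
        ∀ x : FreeMonoid A, (∀ p ∈ T, p.1 x = p.2 x ∧ Spread N p x) → ∀ p ∈ S, p.1 x = p.2 x := by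
  obtain ⟨K, hK⟩ := fin_list A N
  refine ⟨K, fun B S => ?_⟩
  let φ : ((FreeMonoid A →* FreeMonoid B) × (FreeMonoid A →* FreeMonoid B)) →
      (A → List B) × (A → List B) := fun p => (li p.1, li p.2)
  have hφ : Function.Injective φ := by
    intro p q h
    simp only [φ, Prod.mk.injEq] at h
    exact Prod.ext (li_inj h.1) (li_inj h.2)
  obtain ⟨T, hTS, hTf, hTc, hT⟩ := hK B (φ '' S)
  refine ⟨φ ⁻¹' T, ?_, hTf.preimage hφ.injOn, ?_, ?_⟩
  · intro p hp
    obtain ⟨q, hq, he⟩ := hTS hp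
    rwa [← hφ he]
  · calc (φ ⁻¹' T).ncard = (φ '' (φ ⁻¹' T)).ncard := (Set.ncard_image_of_injective _ hφ).symm
      _ ≤ T.ncard := Set.ncard_le_ncard (Set.image_preimage_subset φ T) hTf
      _ ≤ K := hTc
  · intro x hx p hp
    have key := hT x.toList ?_ (φ p) ⟨p, hp, rfl⟩
    · simp only [φ, li_flatMap] at key
      exact FreeMonoid.toList.injective key
    · intro q hq
      obtain ⟨p', hp', rfl⟩ := hTS hq
      have h1 := hx p' hq
      refine ⟨?_, spread_spr h1.2⟩
      simp only [φ, li_flatMap, h1.1]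

end H47.SW
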