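import Pool.Agent.H47.SW.FinD

/-!
Definitions for homomorphisms of free monoids.
-/

set_option autoImplicit false

namespace H47.SW

open FreeMonoid

variable {A B : Type}

open Classical in
/-- The number of letters of the word `w` which are not erased by the homomorphism `g`. -/
noncomputable def visible (g : FreeMonoid A →* FreeMonoid B) (w : FreeMonoid A) : ℕ :=
  (w.toList.filter (fun a => decide (g (of a) ≠ 1))).length

/-- The word `x` is `N`-spread for the pair `p = (g, h)` of homomorphisms: every factor `w` of `x`
with at least `N` letters not erased by `g` satisfies `|g(a)| ≤ N |g(w)|` for all letters `a`, the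
same for `h`, and the numbers of letters of `x` not erased by `g`, not erased by `h`, are equal up
to a factor `N`. -/
def Spread (N : ℕ) (p : (FreeMonoid A →* FreeMonoid B) × (FreeMonoid A →* FreeMonoid B))
    (x : FreeMonoid A) : Prop :=
  (∀ y w z, x = y * w * z → N ≤ visible p.1 w → ∀ a, (p.1 (of a)).length ≤ N * (p.1 w).length) ∧
  (∀ y w z, x = y * w * z → N ≤ visible p.2 w → ∀ a, (p.2 (of a)).length ≤ N * (p.2 w).length) ∧
  visible p.1 x ≤ N * visible p.2 x ∧ visible p.2 x ≤ N * visible p.1 x

/-- Letter images of a homomorphism. -/
def li (g : FreeMonoid A →* FreeMonoid B) : A → List B := fun a => (g (of a)).toList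

end H47.SW
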