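import Pool.Agent.H47.SW.RigD

/-!
MODULE Rig1 (about 130 lines).  Isolation of long overhangs.

* `iso`: let `t = o.length`, `t' = o'.length`; wlog `t' <= t`, `d = t - t'`.  From
  `8 t / m = 8 t' / m` we get `8 d < m` (Nat.div).  If `d = 0`, both are the suffix of `Y` of the
  same length.  Otherwise `X` agrees with `o` on the first `min t X.length` letters, and with `o'`
  on the first `min t' X.length` letters, and `o' = o.drop d`.  So for `i + d < min t X.length`:
  `X[i] = o'[i] = o[i + d] = X[i + d]`: the prefix of `X` of length `l = min t X.length` has the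
  period `d`, `8 d <= m`, `m <= 2 l`: contradiction to `Aper m X`.
* `V0_strong`: `v1 = v' ++ [y]` since `o ≠ []`, and `o <:+ v1.flatMap g` with
  `o.length <= (g y).length` so `o <:+ g y`.  Cancelling `u1.flatMap g`:
  `u2.flatMap g = o ++ v2.flatMap g`, so `u2 = x :: _` and `g x`, `o` are prefixes of the same word.
  `g x` is a factor of `(u1 ++ u2).flatMap g`.
* `V0_nil`: all four words empty.
-/

set_option autoImplicit false

namespace H47.SW

variable {D B : Type}

private theorem rig1_get {X o : List B} (h : X <+: o ∨ o <+: X) (i : ℕ) (h1 : i < o.length)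
    (h2 : i < X.length) : X[i]? = o[i]? := by
  rcases h with ⟨t, rfl⟩ | ⟨t, rfl⟩
  · rw [List.getElem?_append_left h2]
  · rw [List.getElem?_append_left h1]

private theorem rig1_iso {Y X o o' : List B} {m : ℕ} (h1 : o <:+ Y) (h2 : o' <:+ Y)
    (hX : m ≤ X.length) (h3 : X <+: o ∨ o <+: X) (h4 : X <+: o' ∨ o' <+: X) (hA : Aper m X)
    (l1 : m ≤ 2 * o.length) (hm : 0 < m)
    (hb : 8 * o.length / m = 8 * o'.length / m) (hle : o'.length ≤ o.length) : o = o' := by
  obtain ⟨s, hs⟩ := List.suffix_of_suffix_length_le h2 h1 hle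
  by_cases hs0 : s = []
  · subst hs0
    simpa using hs.symm
  exfalso
  have hsl : 0 < s.length := List.length_pos_iff.2 hs0
  have hlen : o.length = s.length + o'.length := by rw [← hs, List.length_append]
  have h8 : 8 * s.length ≤ m := by
    have a1 := Nat.div_mul_le_self (8 * o'.length) m
    have a2 := Nat.lt_mul_div_succ (8 * o.length) hm
    rw [hb, Nat.mul_succ, Nat.mul_comm m] at a2
    omega
  refine hA (X.take (min o.length X.length)) (List.take_prefix _ _).isInfix ?_ ?_
  · rw [List.length_take]
    omega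
  · refine ⟨s.length, hsl, h8, ?_⟩
    intro i hi
    rw [List.length_take] at hi
    rw [List.getElem?_take_of_lt (by omega), List.getElem?_take_of_lt (by omega),
      rig1_get h4 i (by omega) (by omega), rig1_get h3 (i + s.length) (by omega) (by omega)]
    rw [← hs, List.getElem?_append_right (by omega), Nat.add_sub_cancel]

theorem iso {Y X o o' : List B} {m : ℕ} (hm : 0 < m) (h1 : o <:+ Y) (h2 : o' <:+ Y)
    (hX : m ≤ X.length) (h3 : X <+: o ∨ o <+: X) (h4 : X <+: o' ∨ o' <+: X) (hA : Aper m X)
    (l1 : m ≤ 2 * o.length) (l2 : m ≤ 2 * o'.length)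
    (hb : 8 * o.length / m = 8 * o'.length / m) : o = o' := by
  rcases le_total o'.length o.length with h | h
  · exact rig1_iso h1 h2 hX h3 h4 hA l1 hm hb h
  · exact (rig1_iso h2 h1 hX h4 h3 hA l2 hm hb.symm h).symm

theorem V0_strong {m : ℕ} {g : D → List B} {o : List B} (h : V0 m g o) (ho : o ≠ []) :
    ∃ y x, o <:+ g y ∧ m ≤ (g x).length ∧ (g x <+: o ∨ o <+: g x) ∧ Aper m (g x) := by
  obtain ⟨u1, u2, v1, v2, hu, hv, hA, he, hov, hor⟩ := h
  rcases hor with hor | ⟨v', y, hv1, hy⟩
  · exact absurd hor ho
  have e1 : u2.flatMap g = o ++ v2.flatMap g := by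
    rw [List.flatMap_append, List.flatMap_append, hov, List.append_assoc] at he
    exact List.append_cancel_left he
  cases u2 with
  | nil =>
    exfalso
    simp only [List.flatMap_nil] at e1
    have := List.append_eq_nil_iff.1 e1.symm
    exact ho this.1
  | cons x r =>
    refine ⟨y, x, ?_, hu x (by simp), ?_, ?_⟩
    · have a1 : o <:+ v1.flatMap g := ⟨u1.flatMap g, hov.symm⟩
      have a2 : g y <:+ v1.flatMap g := by
        refine ⟨v'.flatMap g, ?_⟩
        rw [hv1, List.flatMap_append]
        simp
      exact List.suffix_of_suffix_length_le a1 a2 hy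
    · rw [List.flatMap_cons] at e1
      have b1 : g x <+: g x ++ r.flatMap g := List.prefix_append _ _
      have b2 : o <+: g x ++ r.flatMap g := by
        rw [e1]
        exact List.prefix_append _ _
      exact List.prefix_or_prefix_of_prefix b1 b2
    · refine hA.sub_of ?_
      refine ⟨u1.flatMap g, r.flatMap g, ?_⟩
      rw [List.flatMap_append, List.flatMap_cons, List.append_assoc]

theorem V0_nil {m : ℕ} (hm : 0 < m) (g : D → List B) : V0 m g ([] : List B) := by
  refine ⟨[], [], [], [], by simp, by simp, ?_, rfl, rfl, Or.inl rfl⟩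
  intro z hz hl
  have hz0 : z = [] := by
    simpa using hz
  subst hz0
  simp at hl
  omega

end H47.SW
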