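import Pool.Agent.H47.SW.RigD

/-!
MODULE Rig2 (about 130 lines).  A short overhang comes from a long one in one step.

Let `o ≠ []`, `v1 = v' ++ [y]`, `o.length <= (g y).length`, so `g y = a ++ o` with
`a.length = (g y).length - o.length`, and `v'.flatMap g ++ a = u1.flatMap g`.
If `u1 = []` then `a = []`, so `g y = o` has length `< m / 2`, impossible.  Let `u1 = u' ++ [x]`:
`v'.flatMap g ++ a = u'.flatMap g ++ g x`.
* If `(g x).length <= a.length`: `a = b ++ g x`, `v'.flatMap g ++ b = u'.flatMap g`, and
  `o1 = g x ++ o` is the overhang at `(u', x :: u2, v1, v2)`: `v1.flatMap g = u'.flatMap g ++ g x ++ o`,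
  `o1.length = (g x).length + o.length <= (g y).length`.  `o1 = g x ++ o` is the first alternative
  with `z = x`, and `o1.length >= m`.
* Otherwise `g x = b ++ a` with `u'.flatMap g ++ b = v'.flatMap g`; then
  `u1.flatMap g = v'.flatMap g ++ a`: with the roles of `u` and `v` exchanged, `o1 = a` is the
  overhang at `(v', y :: v2, u1, u2)`: `a.length <= (g x).length`.  `g y = a ++ o` is the second
  alternative with `z = y`, and `2 a.length = 2 (g y).length - 2 o.length >= 2 m - m`.
  (`Aper m` for the exchanged pair: the two images are equal.)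
-/

set_option autoImplicit false

namespace H47.SW

variable {D B : Type}

theorem V0_weak {m : ℕ} {g : D → List B} {o : List B} (hm : 0 < m) (h : V0 m g o)
    (hs : 2 * o.length < m) :
    o = [] ∨ ∃ z o1, V0 m g o1 ∧ m ≤ 2 * o1.length ∧ (o1 = g z ++ o ∨ g z = o1 ++ o) := by
  obtain ⟨u1, u2, v1, v2, hU, hV, hA, hE, hO, hl⟩ := h
  rcases hl with ho | ⟨v', y, rfl, hy⟩
  · exact Or.inl ho
  right
  have hsuf : o <:+ g y := by
    have s1 : o <:+ (v' ++ [y]).flatMap g := ⟨_, hO.symm⟩
    have s2 : g y <:+ (v' ++ [y]).flatMap g :=
      ⟨v'.flatMap g, by simp [List.flatMap_append]⟩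
    exact List.suffix_of_suffix_length_le s1 s2 hy
  obtain ⟨a, ha⟩ := hsuf
  have hcan : v'.flatMap g ++ a = u1.flatMap g := by
    have h1 : (v'.flatMap g ++ a) ++ o = u1.flatMap g ++ o := by
      rw [← hO, List.append_assoc, ha]
      simp [List.flatMap_append]
    exact List.append_cancel_right h1
  have hylen : m ≤ (g y).length := hV y (by simp)
  have hsum : a.length + o.length = (g y).length := by rw [← ha, List.length_append]
  rcases List.eq_nil_or_concat u1 with rfl | ⟨u', x, rfl⟩
  · exfalso
    have h2 := congrArg List.length hcan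
    simp only [List.flatMap_nil, List.length_append, List.length_nil] at h2
    omega
  · have hcan2 : v'.flatMap g ++ a = u'.flatMap g ++ g x := by
      rw [hcan]; simp [List.flatMap_append]
    have hxlen : m ≤ (g x).length := hU x (by simp)
    have sx : g x <:+ v'.flatMap g ++ a := ⟨u'.flatMap g, hcan2.symm⟩
    have sa : a <:+ v'.flatMap g ++ a := ⟨v'.flatMap g, rfl⟩
    by_cases hxa : (g x).length ≤ a.length
    · obtain ⟨b, hb⟩ := List.suffix_of_suffix_length_le sx sa hxa
      refine ⟨x, g x ++ o, ⟨u', x :: u2, v' ++ [y], v2, ?_, hV, ?_, ?_, ?_, ?_⟩, ?_, Or.inl rfl⟩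
      · intro z hz
        exact hU z (by simpa using hz)
      · simpa using hA
      · simpa using hE
      · rw [hO]; simp [List.flatMap_append]
      · right
        refine ⟨v', y, rfl, ?_⟩
        rw [List.length_append]
        omega
      · rw [List.length_append]
        omega
    · obtain ⟨b, hb⟩ := List.suffix_of_suffix_length_le sa sx (by omega)
      have hb2 : u'.flatMap g ++ b = v'.flatMap g := by
        have h1 : (u'.flatMap g ++ b) ++ a = v'.flatMap g ++ a := by
          rw [List.append_assoc, hb, hcan2]
        exact List.append_cancel_right h1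
      have hEq : (v' ++ (y :: v2)).flatMap g = ((u' ++ [x]) ++ u2).flatMap g := by
        rw [List.append_cons]; simpa using hE.symm
      refine ⟨y, a, ⟨v', y :: v2, u' ++ [x], u2, ?_, ?_, ?_, hEq, ?_, ?_⟩, ?_, Or.inr ha.symm⟩
      · intro z hz
        exact hV z (by simpa using hz)
      · intro z hz
        exact hU z (by simpa using hz)
      · rw [hEq]
        simpa using hA
      · rw [← hb2, List.append_assoc, hb]
        simp [List.flatMap_append]
      · right
        exact ⟨u', x, rfl, by omega⟩
      · omega

end H47.SW
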