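import Pool.Agent.H47.SW.Rig1
import Pool.Agent.H47.SW.Rig2

/-!
MODULE Rig3 (about 120 lines).  The overhangs have injective codes.

Strong overhangs (`m <= 2 o.length`, `V0 m g o`): choose `y, x` by `V0_strong` and the code
`(y, x, 8 o.length / m)`; note `o.length <= (g y).length <= C m`, so `8 o.length / m <= 8 C`.
Injective by `iso`.  Weak nonempty overhangs: choose `z, o1` and the alternative by `V0_weak`; code:
(code of `o1`, `z`, alternative); it determines `o1` and then `o` (cancellation).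
`o = []` has the code `none`.
-/

set_option autoImplicit false

namespace H47.SW

variable {D B : Type}

private def Rig3S (C m : ℕ) (g : D → List B) (o : List B) (c : D × D × Fin (8 * C + 1)) :
    Prop :=
  m ≤ 2 * o.length ∧ o <:+ g c.1 ∧ m ≤ (g c.2.1).length ∧ (g c.2.1 <+: o ∨ o <+: g c.2.1) ∧
    Aper m (g c.2.1) ∧ 8 * o.length / m = c.2.2.val

private def Rig3C (C m : ℕ) (g : D → List B) (o : List B) : Code D C → Prop
  | none => o = []
  | some (Sum.inl c) => Rig3S C m g o c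
  | some (Sum.inr (c, z, b)) => ∃ o1, Rig3S C m g o1 c ∧
      ((b = true ∧ o1 = g z ++ o) ∨ (b = false ∧ g z = o1 ++ o))

private theorem rig3_injS {C m : ℕ} {g : D → List B} (hm : 0 < m) {o o' : List B}
    {c : D × D × Fin (8 * C + 1)} (h : Rig3S C m g o c) (h' : Rig3S C m g o' c) : o = o' :=
  iso hm h.2.1 h'.2.1 h.2.2.1 h.2.2.2.1 h'.2.2.2.1 h.2.2.2.2.1 h.1 h'.1
    (h.2.2.2.2.2.trans h'.2.2.2.2.2.symm)

private theorem rig3_injC {C m : ℕ} {g : D → List B} (hm : 0 < m) {o o' : List B}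
    {k : Code D C} (h : Rig3C C m g o k) (h' : Rig3C C m g o' k) : o = o' := by
  rcases k with _ | c | ⟨c, z, b⟩
  · exact (h : o = []).trans (h' : o' = []).symm
  · exact rig3_injS hm (h : Rig3S C m g o c) h'
  · obtain ⟨o1, h1, h2⟩ := (h : ∃ o1, Rig3S C m g o1 c ∧
      ((b = true ∧ o1 = g z ++ o) ∨ (b = false ∧ g z = o1 ++ o)))
    obtain ⟨o2, h3, h4⟩ := (h' : ∃ o1, Rig3S C m g o1 c ∧
      ((b = true ∧ o1 = g z ++ o') ∨ (b = false ∧ g z = o1 ++ o')))
    have e : o1 = o2 := rig3_injS hm h1 h3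
    subst e
    rcases h2 with ⟨hb, h2⟩ | ⟨hb, h2⟩ <;> rcases h4 with ⟨hb', h4⟩ | ⟨hb', h4⟩
    · exact List.append_cancel_left (h2.symm.trans h4)
    · rw [hb] at hb'
      exact absurd hb' (by decide)
    · rw [hb] at hb'
      exact absurd hb' (by decide)
    · exact List.append_cancel_left (h2.symm.trans h4)

private theorem rig3_exS {C m : ℕ} {g : D → List B} (hm : 0 < m)
    (hg : ∀ x, (g x).length ≤ C * m) {o : List B} (h : V0 m g o) (hs : m ≤ 2 * o.length) :
    ∃ c : D × D × Fin (8 * C + 1), Rig3S C m g o c := by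
  have ho : o ≠ [] := by
    intro h0
    subst h0
    simp at hs
    omega
  obtain ⟨y, x, h1, h2, h3, h4⟩ := V0_strong h ho
  have hl : 8 * o.length / m < 8 * C + 1 := by
    have a1 : o.length ≤ C * m := h1.length_le.trans (hg y)
    have a2 : 8 * o.length ≤ 8 * C * m := by
      rw [mul_assoc]
      exact Nat.mul_le_mul_left 8 a1
    exact Nat.lt_succ_of_le (Nat.div_le_of_le_mul (by rw [mul_comm m]; exact a2))
  exact ⟨(y, x, ⟨_, hl⟩), hs, h1, h2, h3, h4, rfl⟩

private theorem rig3_exC {C m : ℕ} {g : D → List B} (hm : 0 < m)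
    (hg : ∀ x, (g x).length ≤ C * m) {o : List B} (h : V0 m g o) :
    ∃ k : Code D C, Rig3C C m g o k := by
  by_cases hs : m ≤ 2 * o.length
  · obtain ⟨c, hc⟩ := rig3_exS hm hg h hs
    exact ⟨some (Sum.inl c), hc⟩
  · rcases V0_weak hm h (not_le.1 hs) with h0 | ⟨z, o1, h1, h2, h3⟩
    · exact ⟨none, h0⟩
    · obtain ⟨c, hc⟩ := rig3_exS hm hg h1 h2
      rcases h3 with h3 | h3
      · exact ⟨some (Sum.inr (c, z, true)), o1, hc, Or.inl ⟨rfl, h3⟩⟩
      · exact ⟨some (Sum.inr (c, z, false)), o1, hc, Or.inr ⟨rfl, h3⟩⟩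

theorem code_exists {C m : ℕ} {g : D → List B} (hm : 0 < m) (hg : ∀ x, (g x).length ≤ C * m) :
    ∃ c : List B → Code D C, Set.InjOn c {o | V0 m g o} := by
  classical
  have h : ∀ o : List B, ∃ k : Code D C, V0 m g o → Rig3C C m g o k := by
    intro o
    by_cases ho : V0 m g o
    · obtain ⟨k, hk⟩ := rig3_exC hm hg ho
      exact ⟨k, fun _ => hk⟩
    · exact ⟨none, fun h => absurd h ho⟩
  choose c hc using h
  refine ⟨c, fun o ho o' ho' he => ?_⟩
  have h1 := hc o ho
  have h2 := hc o' ho'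
  rw [← he] at h2
  exact rig3_injC hm h1 h2

end H47.SW
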