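import Pool.Agent.H47.SW.Rig1

/-!
MODULES Rig4 (this file, about 100 lines: acc_of_eq) and Rig5 (eq_of_acc, rigid).  The transition tables determine the kernel on aperiodic pairs.

* `acc_of_eq` (completeness): induction on `u2.length + v2.length`.  If `u2 = []`:
  `u1.flatMap g = (v1 ++ v2).flatMap g = u1.flatMap g ++ o ++ v2.flatMap g`, so `o = []`, and
  `v2 = []` as the letters of `v2` have nonempty images; `Acc.nil` (here `k0 = c []`).
  If `u2 = x :: u2'`: `g x ++ u2'.flatMap g = o ++ v2.flatMap g`.  If `o = g x ++ o'`: `stay`, the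
  new state is `o'` at `(u1 ++ [x], u2', v1, v2)`.  Otherwise `g x = o ++ o'`, `o' ≠ []`: `swap`, the
  new state is `o'` with behind `v`: `(v1, v2, u1 ++ [x], u2')`,
  `(u1 ++ [x]).flatMap g = v1.flatMap g ++ o'`, `o'.length <= (g x).length`.
  In both cases the data for `V0 m g o` and `V0 m g o'` are at hand.
* `eq_of_acc` (soundness): induction on `Acc`, with `InjOn` to identify the overhangs.
* `rigid`: `cl m g = (stT m g c, swT m g c, c [])` with `c` from `code_exists` (and anything if the
  hypotheses fail).
-/

set_option autoImplicit false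

namespace H47.SW

variable {D B : Type}

private theorem rig4_aux {m : ℕ} {g : D → List B} (hm : 0 < m) {K : Type} (c : List B → K) :
    ∀ (n : ℕ) (u1 u2 v1 v2 : List D) (o : List B), u2.length + v2.length ≤ n →
      (∀ x ∈ u1 ++ u2, m ≤ (g x).length) →
      (∀ x ∈ v1 ++ v2, m ≤ (g x).length) → Aper m ((u1 ++ u2).flatMap g) →
      (u1 ++ u2).flatMap g = (v1 ++ v2).flatMap g → v1.flatMap g = u1.flatMap g ++ o →
      (o = [] ∨ ∃ v' y, v1 = v' ++ [y] ∧ o.length ≤ (g y).length) →
      Acc (stT m g c) (swT m g c) (c []) (c o) u2 v2 := by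
  intro n
  induction n with
  | zero =>
    intro u1 u2 v1 v2 o hn hu hv hA he hov hor
    have h1 : u2 = [] := List.length_eq_zero_iff.1 (by omega)
    have h2 : v2 = [] := List.length_eq_zero_iff.1 (by omega)
    subst h1
    subst h2
    rw [List.append_nil, List.append_nil, hov] at he
    have h3 : o = [] := by
      have := congrArg List.length he
      rw [List.length_append] at this
      exact List.length_eq_zero_iff.1 (by omega)
    subst h3
    exact Acc.nil
  | succ n ih =>
    intro u1 u2 v1 v2 o hn hu hv hA he hov hor
    have hV : V0 m g o := ⟨u1, u2, v1, v2, hu, hv, hA, he, hov, hor⟩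
    have e1 : u2.flatMap g = o ++ v2.flatMap g := by
      have he' := he
      rw [List.flatMap_append, List.flatMap_append, hov, List.append_assoc] at he'
      exact List.append_cancel_left he'
    cases u2 with
    | nil =>
      simp only [List.flatMap_nil] at e1
      obtain ⟨h3, h4⟩ := List.append_eq_nil_iff.1 e1.symm
      subst h3
      have h5 : v2 = [] := by
        cases v2 with
        | nil => rfl
        | cons y r =>
          exfalso
          rw [List.flatMap_cons] at h4
          have h6 := (List.append_eq_nil_iff.1 h4).1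
          have h7 := hv y (by simp)
          rw [h6] at h7
          simp at h7
          omega
      subst h5
      exact Acc.nil
    | cons x r =>
      have hx : m ≤ (g x).length := hu x (by simp)
      have ea : (u1 ++ [x]) ++ r = u1 ++ x :: r := by simp
      have eb : (u1 ++ [x]).flatMap g = u1.flatMap g ++ g x := by
        rw [List.flatMap_append]
        simp
      rw [List.flatMap_cons, List.append_eq_append_iff] at e1
      rcases e1 with ⟨o', ho, _⟩ | ⟨o', ho, _⟩
      · -- stay
        have c1 : v1.flatMap g = (u1 ++ [x]).flatMap g ++ o' := by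
          rw [eb, hov, ho, List.append_assoc]
        have c2 : o' = [] ∨ ∃ v' y, v1 = v' ++ [y] ∧ o'.length ≤ (g y).length := by
          rcases hor with h | ⟨v', y, h3, h4⟩
          · exfalso
            rw [h] at ho
            have h6 := (List.append_eq_nil_iff.1 ho.symm).1
            rw [h6] at hx
            simp at hx
            omega
          · refine Or.inr ⟨v', y, h3, ?_⟩
            rw [ho, List.length_append] at h4
            omega
        have c3 := hu
        have c4 := hA
        have c5 := he
        rw [← ea] at c3 c4 c5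
        have hV' : V0 m g o' := ⟨u1 ++ [x], r, v1, v2, c3, hv, c4, c5, c1, c2⟩
        exact Acc.stay ⟨o, o', hV, hV', rfl, rfl, ho⟩
          (ih (u1 ++ [x]) r v1 v2 o' (by simp only [List.length_cons] at hn; omega)
            c3 hv c4 c5 c1 c2)
      · -- swap
        have c1 : (u1 ++ [x]).flatMap g = v1.flatMap g ++ o' := by
          rw [eb, hov, ho, List.append_assoc]
        have c2 : o' = [] ∨ ∃ v' y, u1 ++ [x] = v' ++ [y] ∧ o'.length ≤ (g y).length := by
          refine Or.inr ⟨u1, x, rfl, ?_⟩
          rw [ho, List.length_append]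
          omega
        have c3 := hu
        have c5 := he.symm
        have c4 := hA
        rw [he] at c4
        rw [← ea] at c3 c5
        have hV' : V0 m g o' := ⟨v1, v2, u1 ++ [x], r, hv, c3, c4, c5, c1, c2⟩
        exact Acc.swap ⟨o, o', hV, hV', rfl, rfl, ho⟩
          (ih v1 v2 (u1 ++ [x]) r o' (by simp only [List.length_cons] at hn; omega)
            hv c3 c4 c5 c1 c2)

theorem acc_of_eq {m : ℕ} {g : D → List B} (hm : 0 < m) {K : Type} (c : List B → K) :
    ∀ (u1 u2 v1 v2 : List D) (o : List B), (∀ x ∈ u1 ++ u2, m ≤ (g x).length) →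
      (∀ x ∈ v1 ++ v2, m ≤ (g x).length) → Aper m ((u1 ++ u2).flatMap g) →
      (u1 ++ u2).flatMap g = (v1 ++ v2).flatMap g → v1.flatMap g = u1.flatMap g ++ o →
      (o = [] ∨ ∃ v' y, v1 = v' ++ [y] ∧ o.length ≤ (g y).length) →
      Acc (stT m g c) (swT m g c) (c []) (c o) u2 v2 :=
  fun u1 u2 v1 v2 o => rig4_aux hm c (u2.length + v2.length) u1 u2 v1 v2 o le_rfl

end H47.SW
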