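import Pool.Agent.H47.SW.Rig3
import Pool.Agent.H47.SW.Rig4

/-!
MODULE Rig5 (about 80 lines: eq_of_acc, rigid), see the header of `Rig4.lean`.
-/

set_option autoImplicit false

namespace H47.SW

variable {D B : Type}

theorem eq_of_acc {m : ℕ} {g : D → List B} (hm : 0 < m) {K : Type} (c : List B → K)
    (hc : Set.InjOn c {o | V0 m g o}) {k : K} {u v : List D}
    (h : Acc (stT m g c) (swT m g c) (c []) k u v) :
    ∀ o, V0 m g o → c o = k → u.flatMap g = o ++ v.flatMap g := by
  induction h with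
  | nil =>
    intro o ho hk
    have h1 : o = [] := hc ho (V0_nil hm g) hk
    subst h1
    simp
  | stay hst _ ih =>
    intro o ho hk
    obtain ⟨o1, o2, hv1, hv2, hk1, hk2, he⟩ := hst
    have h1 : o = o1 := hc ho hv1 (by rw [hk, hk1])
    subst h1
    have h2 := ih o2 hv2 hk2
    rw [List.flatMap_cons, h2, he, List.append_assoc]
  | swap hsw _ ih =>
    intro o ho hk
    obtain ⟨o1, o2, hv1, hv2, hk1, hk2, he⟩ := hsw
    have h1 : o = o1 := hc ho hv1 (by rw [hk, hk1])
    subst h1
    have h2 := ih o2 hv2 hk2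
    rw [List.flatMap_cons, h2, he, List.append_assoc]

theorem rigid (D : Type) (C : ℕ) (B : Type) :
    ∃ cl : ℕ → (D → List B) → RCt D C, ∀ (m m' : ℕ) (g g' : D → List B), 0 < m → 0 < m' →
      (∀ x, (g x).length ≤ C * m) → (∀ x, (g' x).length ≤ C * m') →
      cl m g = cl m' g' → Trans m g g' := by
  classical
  refine ⟨fun m g => if h : 0 < m ∧ ∀ x, (g x).length ≤ C * m then
    (stT m g (code_exists h.1 h.2).choose, swT m g (code_exists h.1 h.2).choose,
      (code_exists h.1 h.2).choose []) else (fun _ _ _ => False, fun _ _ _ => False, none), ?_⟩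
  intro m m' g g' hm hm' hg hg' heq
  have h : 0 < m ∧ ∀ x, (g x).length ≤ C * m := ⟨hm, hg⟩
  have h' : 0 < m' ∧ ∀ x, (g' x).length ≤ C * m' := ⟨hm', hg'⟩
  simp only [dif_pos h, dif_pos h', Prod.mk.injEq] at heq
  obtain ⟨e1, e2, e3⟩ := heq
  have hc' := (code_exists h'.1 h'.2).choose_spec
  intro U V hU hV hUV hA
  have h1 := acc_of_eq (g := g) hm (code_exists h.1 h.2).choose [] U [] V [] (by simpa using hU)
    (by simpa using hV) (by simpa using hA) (by simpa using hUV) (by simp) (Or.inl rfl)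
  rw [e1, e2, e3] at h1
  have h2 := eq_of_acc (g := g') hm' (code_exists h'.1 h'.2).choose hc' h1 [] (V0_nil hm' g') rfl
  simpa using h2

end H47.SW
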