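import Pool.Agent.H47.SW.Per

/-!
Definitions for the rigid part.

The two words `u`, `v` with `u.flatMap g = v.flatMap g` are read letter by letter, always a letter
of the word which is behind.  The state is the overhang `o`: the image of what has been read of the
word which is ahead is the image of what has been read of the other one followed by `o`.
-/

set_option autoImplicit false

namespace H47.SW

variable {D B : Type}

/-- `o` occurs as an overhang: `u1`, `v1` have been read, `v` is ahead by `o`, and `o` is at most
as long as the image of the last letter read in `v`. -/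
def V0 (m : ℕ) (g : D → List B) (o : List B) : Prop :=
  ∃ u1 u2 v1 v2 : List D, (∀ x ∈ u1 ++ u2, m ≤ (g x).length) ∧
    (∀ x ∈ v1 ++ v2, m ≤ (g x).length) ∧ Aper m ((u1 ++ u2).flatMap g) ∧
    (u1 ++ u2).flatMap g = (v1 ++ v2).flatMap g ∧ v1.flatMap g = u1.flatMap g ++ o ∧
    (o = [] ∨ ∃ v' y, v1 = v' ++ [y] ∧ o.length ≤ (g y).length)

/-- Reading: `Acc st sw k0 k u v`, the word behind is `u`, the word ahead is `v`. -/
inductive Acc {K : Type} (st sw : K → D → K → Prop) (k0 : K) : K → List D → List D → Prop
  | nil : Acc st sw k0 k0 [] []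
  | stay {k x k' u v} : st k x k' → Acc st sw k0 k' u v → Acc st sw k0 k (x :: u) v
  | swap {k x k' u v} : sw k x k' → Acc st sw k0 k' v u → Acc st sw k0 k (x :: u) v

/-- Codes of overhangs. -/
abbrev Code (D : Type) (C : ℕ) : Type :=
  Option ((D × D × Fin (8 * C + 1)) ⊕ ((D × D × Fin (8 * C + 1)) × D × Bool))

/-- Transition tables. -/
abbrev RCt (D : Type) (C : ℕ) : Type :=
  (Code D C → D → Code D C → Prop) × (Code D C → D → Code D C → Prop) × Code D C

/-- The `stay` transitions in codes. -/
def stT (m : ℕ) (g : D → List B) {K : Type} (c : List B → K) (k : K) (x : D) (k' : K) : Prop :=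
  ∃ o o', V0 m g o ∧ V0 m g o' ∧ c o = k ∧ c o' = k' ∧ o = g x ++ o'

/-- The `swap` transitions in codes. -/
def swT (m : ℕ) (g : D → List B) {K : Type} (c : List B → K) (k : K) (x : D) (k' : K) : Prop :=
  ∃ o o', V0 m g o ∧ V0 m g o' ∧ c o = k ∧ c o' = k' ∧ g x = o ++ o'

end H47.SW
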