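import Pool.Agent.H47.SW.Per

/-!
MODULE SegF (this file, about 150 lines): `count4`, `segF`.   The toral segments are in `SegT.lean`.

`g` gives the words of the pieces, all of length at most `C m`; in `l` and `l'` all interior pieces
have length at least `m`.
* `count4`: if `l.length > 3 C + 2` then `l.flatMap g` has length `>= (3 C + 1) m > 3 C m`, so
  `l'` has more than 3 pieces (`l.length >= 4` is clear if `C >= 1`; if `C = 0` then `l.flatMap g`
  is empty, while an interior piece has length `>= m > 0`: contradiction).
* `segF`: if both lists have length `<= 3 C + 2`: hypothesis `hs`.  Otherwise by `count4` both have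
  length `>= 4`: `l = p1 :: p2 :: (mid ++ [p3, p4])` and the same for `l'`.  Let
  `U = inr (p1, p2) :: (mid.map inl ++ [inr (p3, p4)])`, same for `V`.  Then
  `U.flatMap (bar g) = l.flatMap g`, all letters of `U` have `bar g`-length `>= m` (`p2`, `p3` and the
  pieces of `mid` are interior), and the same for `V`; so `Trans` gives
  `U.flatMap (bar g') = V.flatMap (bar g')`, which is the claim.
-/

set_option autoImplicit false

namespace H47.SW

variable {P B : Type}

private theorem sf_decomp {l : List P} (h : 2 ≤ l.length) :
    ∃ p mid q, l = p :: (mid ++ [q]) := by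
  match l, h with
  | p :: r :: t, _ =>
    have hne : r :: t ≠ [] := List.cons_ne_nil _ _
    exact ⟨p, (r :: t).dropLast, (r :: t).getLast hne, by
      rw [List.dropLast_append_getLast hne]⟩

private theorem sf_lo {m : ℕ} {g : P → List B} (l : List P) (h : ∀ p ∈ l, m ≤ (g p).length) :
    l.length * m ≤ (l.flatMap g).length := by
  induction l with
  | nil => simp
  | cons a t ih =>
    have h1 := ih (fun p hp => h p (List.mem_cons_of_mem _ hp))
    have h2 := h a List.mem_cons_self
    rw [List.length_cons, List.flatMap_cons, List.length_append, Nat.succ_mul]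
    omega

private theorem sf_hi {M : ℕ} {g : P → List B} (l : List P) (h : ∀ p, (g p).length ≤ M) :
    (l.flatMap g).length ≤ l.length * M := by
  induction l with
  | nil => simp
  | cons a t ih =>
    have h2 := h a
    rw [List.length_cons, List.flatMap_cons, List.length_append, Nat.succ_mul]
    omega

private theorem sf_int {m : ℕ} {g : P → List B} {p q : P} {mid : List P}
    (hl : IntFull m g (p :: (mid ++ [q]))) : ∀ x ∈ mid, m ≤ (g x).length := by
  intro x hx
  obtain ⟨s, t, rfl⟩ := List.append_of_mem hx
  exact hl (p :: s) x (t ++ [q]) (by simp) (List.cons_ne_nil _ _) (by simp)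

private theorem sf_pack {m : ℕ} {g : P → List B} {l : List P} (hl : IntFull m g l)
    (h4 : 4 ≤ l.length) : ∃ U : List (Dl P), (∀ x ∈ U, m ≤ (bar g x).length) ∧
      ∀ g' : P → List B, U.flatMap (bar g') = l.flatMap g' := by
  obtain ⟨p1, mid, p4, rfl⟩ := sf_decomp (l := l) (by omega)
  have h2 : 2 ≤ mid.length := by
    rw [List.length_cons, List.length_append, List.length_singleton] at h4
    omega
  have hi := sf_int hl
  obtain ⟨p2, mid, p3, rfl⟩ := sf_decomp h2
  refine ⟨Sum.inr (p1, p2) :: (mid.map Sum.inl ++ [Sum.inr (p3, p4)]), ?_, ?_⟩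
  · intro x hx
    rw [List.mem_cons, List.mem_append, List.mem_map, List.mem_singleton] at hx
    rcases hx with rfl | ⟨y, hy, rfl⟩ | rfl
    · have := hi p2 List.mem_cons_self
      show m ≤ (g p1 ++ g p2).length
      rw [List.length_append]
      omega
    · exact hi y (List.mem_cons_of_mem _ (List.mem_append_left _ hy))
    · have := hi p3 (List.mem_cons_of_mem _ (List.mem_append_right _ List.mem_cons_self))
      show m ≤ (g p3 ++ g p4).length
      rw [List.length_append]
      omega
  · intro g'
    have e : (mid.map Sum.inl).flatMap (bar g') = mid.flatMap g' := by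
      rw [List.flatMap_map]
      rfl
    simp only [List.flatMap_cons, List.flatMap_append, e, List.flatMap_nil, bar,
      List.append_nil, List.append_assoc]

theorem count4 {C m : ℕ} {g : P → List B} {l l' : List P} (hm : 0 < m)
    (hg : ∀ p, (g p).length ≤ C * m) (hl : IntFull m g l) (h : l.flatMap g = l'.flatMap g)
    (hlen : 3 * C + 2 < l.length) : 4 ≤ l.length ∧ 4 ≤ l'.length := by
  obtain ⟨p, mid, q, rfl⟩ := sf_decomp (l := l) (by omega)
  have hi := sf_int hl
  have h1 := sf_lo mid hi
  have h2 : (mid.flatMap g).length ≤ ((p :: (mid ++ [q])).flatMap g).length := by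
    simp only [List.flatMap_cons, List.flatMap_append, List.length_append]
    omega
  have h3 := sf_hi l' hg
  rw [← h] at h3
  rw [List.length_cons, List.length_append, List.length_singleton] at hlen
  have h5 : 3 * C + 1 ≤ mid.length := by omega
  have h6 : (3 * C + 1) * m ≤ l'.length * (C * m) :=
    (Nat.mul_le_mul_right m h5).trans (h1.trans (h2.trans h3))
  have h7 : 3 * C + 1 ≤ l'.length * C := by
    rw [← Nat.mul_assoc] at h6
    exact Nat.le_of_mul_le_mul_right h6 hm
  have h8 : 4 ≤ l'.length := by
    by_contra hc
    have : l'.length * C ≤ 3 * C := Nat.mul_le_mul_right C (by omega)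
    omega
  have hC : 0 < C := by
    rcases Nat.eq_zero_or_pos C with h0 | h0
    · rw [h0] at h7
      omega
    · exact h0
  refine ⟨?_, h8⟩
  rw [List.length_cons, List.length_append, List.length_singleton]
  omega

theorem segF {C m : ℕ} {g g' : P → List B} {l l' : List P} (hm : 0 < m)
    (hg : ∀ p, (g p).length ≤ C * m) (hl : IntFull m g l) (hl' : IntFull m g l')
    (hs : ∀ l l' : List P, l.length ≤ 3 * C + 2 → l'.length ≤ 3 * C + 2 →
      l.flatMap g = l'.flatMap g → l.flatMap g' = l'.flatMap g')
    (hT : Trans m (bar g) (bar g'))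
    (h : l.flatMap g = l'.flatMap g) (hA : Aper m (l.flatMap g)) :
    l.flatMap g' = l'.flatMap g' := by
  by_cases hlen : l.length ≤ 3 * C + 2 ∧ l'.length ≤ 3 * C + 2
  · exact hs l l' hlen.1 hlen.2 h
  · have h4 : 4 ≤ l.length ∧ 4 ≤ l'.length := by
      by_cases h1 : l.length ≤ 3 * C + 2
      · have h2 : 3 * C + 2 < l'.length := by
          by_contra hc
          exact hlen ⟨h1, by omega⟩
        exact (count4 hm hg hl' h.symm h2).symm
      · exact count4 hm hg hl h (by omega)
    obtain ⟨U, hU, eU⟩ := sf_pack hl h4.1
    obtain ⟨V, hV, eV⟩ := sf_pack hl' h4.2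
    have h5 := hT U V hU hV (by rw [eU, eV, h]) (by rw [eU]; exact hA)
    rw [eU, eV] at h5
    exact h5

end H47.SW
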